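import Pool.Agent.Lib.MP_0ba956_nt.Defs

namespace Pool.Agent.QD4

variable {F Ω : Type*} [Field F] [Field Ω] [Algebra F Ω]

/-- the sign attached to a bit -/
def sg (Ω : Type*) [Field Ω] (t : ZMod 2) : Ω := if t = 0 then 1 else -1

lemma bit (t : ZMod 2) : t = 0 ∨ t = 1 := by revert t; decide

@[simp] lemma sg_zero : sg Ω 0 = 1 := by simp [sg]

@[simp] lemma sg_one : sg Ω 1 = -1 := by simp [sg]

lemma sg_add (a b : ZMod 2) : sg Ω (a + b) = sg Ω a * sg Ω b := by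
  have h11 : (1 + 1 : ZMod 2) = 0 := by decide
  rcases bit a with rfl | rfl <;> rcases bit b with rfl | rfl <;> simp [h11]

lemma sg_sq (a : ZMod 2) : sg Ω a * sg Ω a = 1 := by
  rcases bit a with rfl | rfl <;> simp

lemma map_sg (g : Ω ≃ₐ[F] Ω) (a : ZMod 2) : g (sg Ω a) = sg Ω a := by
  rcases bit a with rfl | rfl <;> simp

lemma ne_neg_of (h2 : (2 : Ω) ≠ 0) {x : Ω} (hx : x ≠ 0) : x ≠ -x := by
  intro h
  have : 2 * x = 0 := by linear_combination h
  rcases mul_eq_zero.mp this with h | h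
  · exact h2 h
  · exact hx h

lemma sg_inj (h2 : (2 : Ω) ≠ 0) {x : Ω} (hx : x ≠ 0) {a b : ZMod 2}
    (h : sg Ω a * x = sg Ω b * x) : a = b := by
  have := ne_neg_of h2 hx
  rcases bit a with rfl | rfl <;> rcases bit b with rfl | rfl
  · rfl
  · exact absurd (by simpa using h) this
  · exact absurd (by simpa using h.symm) this
  · rfl

/-- `x` transforms under the Galois group by the sign character `p`. -/
def Ty (x : Ω) (p : (Ω ≃ₐ[F] Ω) → ZMod 2) : Prop := ∀ g : Ω ≃ₐ[F] Ω, g x = sg Ω (p g) * x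

lemma Ty.mul {x y : Ω} {p q : (Ω ≃ₐ[F] Ω) → ZMod 2} (hx : Ty x p) (hy : Ty y q) :
    Ty (x * y) (p + q) := by
  intro g
  rw [map_mul, hx g, hy g, Pi.add_apply, sg_add]; ring

lemma Ty.uniq (h2 : (2 : Ω) ≠ 0) {x : Ω} (h0 : x ≠ 0) {p q : (Ω ≃ₐ[F] Ω) → ZMod 2}
    (hp : Ty x p) (hq : Ty x q) : p = q := by
  funext g
  exact sg_inj h2 h0 ((hp g).symm.trans (hq g))

lemma ty_zero {x : Ω} : Ty x (0 : (Ω ≃ₐ[F] Ω) → ZMod 2) ↔ ∀ g : Ω ≃ₐ[F] Ω, g x = x := by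
  simp [Ty]

lemma ty_alg (a : F) : Ty (algebraMap F Ω a) (0 : (Ω ≃ₐ[F] Ω) → ZMod 2) :=
  ty_zero.mpr fun g => g.commutes a

lemma ty_of_sign {x : Ω} (h : ∀ g : Ω ≃ₐ[F] Ω, g x = x ∨ g x = -x) :
    ∃ p : (Ω ≃ₐ[F] Ω) → ZMod 2, Ty x p := by
  classical
  refine ⟨fun g => if g x = x then 0 else 1, fun g => ?_⟩
  by_cases hg : g x = x
  · simp [hg]
  · rcases h g with h | h
    · exact absurd h hg
    · simp only [hg, if_false, sg_one]; rw [h]; ring

lemma ty_of_sq {x : Ω} (h : ∀ g : Ω ≃ₐ[F] Ω, g (x ^ 2) = x ^ 2) :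
    ∃ p : (Ω ≃ₐ[F] Ω) → ZMod 2, Ty x p := by
  refine ty_of_sign fun g => ?_
  have := h g
  rw [map_pow] at this
  exact sq_eq_sq_iff_eq_or_eq_neg.mp this

lemma Ty.add (h2 : (2 : Ω) ≠ 0) {x : Ω} (h0 : x ≠ 0) {p : (Ω ≃ₐ[F] Ω) → ZMod 2} (hp : Ty x p)
    (g g' : Ω ≃ₐ[F] Ω) : p (g * g') = p g + p g' := by
  refine sg_inj h2 h0 ?_
  rw [← hp, AlgEquiv.mul_apply, hp g', map_mul, map_sg, hp g, sg_add]; ring

lemma Ty.fixsq {x : Ω} {p : (Ω ≃ₐ[F] Ω) → ZMod 2} (hp : Ty x p) (g : Ω ≃ₐ[F] Ω) :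
    g (x ^ 2) = x ^ 2 := by
  rw [map_pow, hp g, mul_pow, pow_two (sg Ω _), sg_sq, one_mul]

lemma Ty.congr {x : Ω} {p q : (Ω ≃ₐ[F] Ω) → ZMod 2} (hp : Ty x p) (h : p = q) : Ty x q := h ▸ hp

lemma fun_add_self (p : (Ω ≃ₐ[F] Ω) → ZMod 2) : p + p = 0 := by
  funext g
  have : ∀ t : ZMod 2, t + t = 0 := by decide
  exact this _

/-- a norm relation between the characters `p` and `q` -/
def Rel (p q : (Ω ≃ₐ[F] Ω) → ZMod 2) : Prop :=
  ∃ α β T : Ω, α ≠ 0 ∧ β ≠ 0 ∧ Ty α p ∧ Ty β q ∧ Ty T (0 : (Ω ≃ₐ[F] Ω) → ZMod 2) ∧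
    T ^ 2 = α ^ 2 + β ^ 2

lemma Rel.symm {p q : (Ω ≃ₐ[F] Ω) → ZMod 2} (h : Rel p q) : Rel q p := by
  obtain ⟨α, β, T, h1, h2, h3, h4, h5, h6⟩ := h
  exact ⟨β, α, T, h2, h1, h4, h3, h5, by rw [h6]; ring⟩

/-- a presentation of the Galois group of `L` as a quotient of the absolute group -/
def Pres {Γ : Type} [Group Γ] (L : IntermediateField F Ω) (ρ : (Ω ≃ₐ[F] Ω) →* Γ) : Prop :=
  Function.Surjective ρ ∧ ∀ g, ρ g = 1 ↔ ∀ x ∈ L, g x = x

lemma HasGroup.pres [IsGalois F Ω] {Γ : Type} [Group Γ] {L : IntermediateField F Ω}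
    (h : HasGroup Γ L) : ∃ ρ : (Ω ≃ₐ[F] Ω) →* Γ, Pres L ρ := by
  obtain ⟨hG, ⟨e⟩⟩ := h
  refine ⟨e.toMonoidHom.comp (AlgEquiv.restrictNormalHom L), ?_, fun g => ?_⟩
  · exact e.surjective.comp (AlgEquiv.restrictNormalHom_surjective Ω)
  · have : g ∈ (AlgEquiv.restrictNormalHom (F := F) (K₁ := Ω) L).ker ↔ g ∈ L.fixingSubgroup := by
      rw [IntermediateField.restrictNormalHom_ker]
    rw [MonoidHom.mem_ker, IntermediateField.mem_fixingSubgroup_iff] at this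
    rw [← this]
    simp

lemma Pres.eq {Γ : Type} [Group Γ] {L : IntermediateField F Ω} {ρ : (Ω ≃ₐ[F] Ω) →* Γ}
    (h : Pres L ρ) {g g' : Ω ≃ₐ[F] Ω} (hg : ρ g = ρ g') {x : Ω} (hx : x ∈ L) : g x = g' x := by
  have h1 : ρ (g'⁻¹ * g) = 1 := by rw [map_mul, map_inv, hg, inv_mul_cancel]
  have h2 := (h.2 _).mp h1 x hx
  have h3 : g = g' * (g'⁻¹ * g) := by group
  rw [h3, AlgEquiv.mul_apply, h2]

lemma hasGroup_of [IsGalois F Ω] {Γ : Type} [Group Γ] (ρ : (Ω ≃ₐ[F] Ω) →* Γ)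
    (hs : Function.Surjective ρ) (S : Set Ω) (hS : ∀ g, ρ g = 1 ↔ ∀ x ∈ S, g x = x) :
    ∃ L : IntermediateField F Ω, HasGroup Γ L ∧ ∀ x ∈ S, x ∈ L := by
  have hmem : ∀ x ∈ S, x ∈ IntermediateField.fixedField ρ.ker := by
    intro x hx
    rw [IntermediateField.mem_fixedField_iff]
    intro g hg
    exact (hS g).mp hg x hx
  refine ⟨IntermediateField.fixedField ρ.ker, ⟨inferInstance, ?_⟩, hmem⟩
  have hk : (AlgEquiv.restrictNormalHom (F := F) (K₁ := Ω)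
      (IntermediateField.fixedField ρ.ker)).ker = ρ.ker := by
    rw [IntermediateField.restrictNormalHom_ker]
    ext g
    rw [IntermediateField.mem_fixingSubgroup_iff]
    constructor
    · intro h
      exact (hS g).mpr fun x hx => h x (hmem x hx)
    · intro hg x hx
      exact (IntermediateField.mem_fixedField_iff _ _).mp hx g hg
  exact ⟨((QuotientGroup.quotientKerEquivOfSurjective _
    (AlgEquiv.restrictNormalHom_surjective Ω)).symm.trans
      (QuotientGroup.quotientMulEquivOfEq hk)).trans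
        (QuotientGroup.quotientKerEquivOfSurjective ρ hs)⟩

lemma fix_sup {ι : Type} (L : ι → IntermediateField F Ω) (g : Ω ≃ₐ[F] Ω)
    (h : ∀ i, ∀ x ∈ L i, g x = x) : ∀ x ∈ ⨆ i, L i, g x = x := by
  have : (⨆ i, L i) ≤ IntermediateField.fixedField (Subgroup.zpowers g) := by
    refine iSup_le fun i => ?_
    rw [IntermediateField.le_iff_le, Subgroup.zpowers_le, IntermediateField.mem_fixingSubgroup_iff]
    exact h i
  intro x hx
  exact (IntermediateField.mem_fixedField_iff _ _).mp (this hx) g (Subgroup.mem_zpowers g)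

lemma le_of_fix [IsGalois F Ω] {K M : IntermediateField F Ω}
    (h : ∀ g : Ω ≃ₐ[F] Ω, (∀ x ∈ M, g x = x) → ∀ x ∈ K, g x = x) : K ≤ M := by
  rw [← InfiniteGalois.fixedField_fixingSubgroup M]
  intro x hx
  rw [IntermediateField.mem_fixedField_iff]
  intro g hg
  exact h g ((IntermediateField.mem_fixingSubgroup_iff _ _).mp hg) x hx

/-- simultaneous eigenvector -/
lemma eig {V : Type} [Fintype V] [AddCommGroup V] (φ : (Ω ≃ₐ[F] Ω) → V)
    (hφ : ∀ g g', φ (g * g') = φ g + φ g') (hφ2 : ∀ g, φ (g * g) = 0) {δ : Ω} (hδ : δ ≠ 0)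
    (hsq : ∀ g : Ω ≃ₐ[F] Ω, g (g δ) = δ) (hH : ∀ h, φ h = 0 → h δ = δ ∨ h δ = -δ) :
    ∃ ε : Ω, ε ≠ 0 ∧ (∀ g : Ω ≃ₐ[F] Ω, g ε = ε ∨ g ε = -ε) ∧
      ∀ h, φ h = 0 → h ε * δ = ε * h δ := by
  classical
  have h1 : φ 1 = 0 := by simpa using hφ2 1
  have hinv : ∀ g, φ g⁻¹ = -φ g := fun g => by
    have := hφ g⁻¹ g
    rw [inv_mul_cancel, h1] at this
    exact eq_neg_of_add_eq_zero_left this.symm
  have hcom : ∀ a b : Ω ≃ₐ[F] Ω, (a⁻¹ * b⁻¹ * a * b) δ = δ := fun a b => by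
    have : a⁻¹ * b⁻¹ * a * b = a⁻¹ * (a⁻¹ * ((a * b⁻¹) * ((a * b⁻¹) * (b * b)))) := by group
    rw [this]
    simp only [AlgEquiv.mul_apply (a⁻¹), AlgEquiv.mul_apply (a * b⁻¹), AlgEquiv.mul_apply b, hsq]
  let Y : Ω → Prop := fun y => ∀ h, φ h = 0 → h y * δ = y * h δ
  have hYfix : ∀ y, Y y → ∀ n, φ n = 0 → n δ = δ → n y = y := fun y hy n hn hnδ => by
    have := hy n hn
    rw [hnδ] at this
    exact mul_right_cancel₀ hδ this
  have hYsign : ∀ y, Y y → ∀ h, φ h = 0 → h y = y ∨ h y = -y := fun y hy h hh => by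
    rcases hH h hh with e | e
    · exact Or.inl (hYfix y hy h hh e)
    · have := hy h hh
      rw [e] at this
      exact Or.inr (mul_right_cancel₀ hδ (by rw [this]; ring))
  have hYg : ∀ y, Y y → ∀ g : Ω ≃ₐ[F] Ω, Y (g y) := fun y hy g h hh => by
    have e1 : φ (g⁻¹ * h * g) = 0 := by rw [hφ, hφ, hinv, hh]; abel
    have e2 : (g⁻¹ * h * g) δ = h δ := by
      have : g⁻¹ * h * g = h * (h⁻¹ * g⁻¹ * h * g) := by group
      rw [this, AlgEquiv.mul_apply, hcom]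
    have e3 : h (g y) = g ((g⁻¹ * h * g) y) := by
      rw [← AlgEquiv.mul_apply, ← AlgEquiv.mul_apply]
      congr 1; group
    have e4 := hy _ e1
    rw [e2] at e4
    rcases hH h hh with e | e
    · rw [e] at e4 ⊢
      rw [e3, mul_right_cancel₀ hδ e4]
    · rw [e] at e4 ⊢
      have : (g⁻¹ * h * g) y = -y := mul_right_cancel₀ hδ (by rw [e4]; ring)
      rw [e3, this, map_neg]; ring
  have hYcomm : ∀ y, Y y → ∀ g g' : Ω ≃ₐ[F] Ω, g (g' y) = g' (g y) := fun y hy g g' => by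
    have e1 : φ (g⁻¹ * g'⁻¹ * g * g') = 0 := by rw [hφ, hφ, hφ, hinv, hinv]; abel
    have e2 := hYfix y hy _ e1 (hcom g g')
    have : g * g' = g' * g * (g⁻¹ * g'⁻¹ * g * g') := by group
    rw [← AlgEquiv.mul_apply, this, AlgEquiv.mul_apply, e2, AlgEquiv.mul_apply]
  have hYsq : ∀ y, Y y → ∀ g : Ω ≃ₐ[F] Ω, g (g y) = y := fun y hy g =>
    hYfix y hy (g * g) (hφ2 g) (hsq g)
  have key : ∀ s : Finset V, ∃ y, y ≠ 0 ∧ Y y ∧ ∀ g, φ g ∈ s → g y = y ∨ g y = -y := by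
    intro s
    induction s using Finset.induction_on with
    | empty => exact ⟨δ, hδ, fun h _ => mul_comm _ _, fun g hg => absurd hg (by simp)⟩
    | insert t s _ ih =>
      obtain ⟨y, hy0, hy, hys⟩ := ih
      by_cases ht : ∃ g0, φ g0 = t
      · obtain ⟨g0, hg0⟩ := ht
        have step : ∀ z, Y z → (g0 z = z ∨ g0 z = -z) → ∀ g, φ g = t → g z = z ∨ g z = -z := by
          intro z hz hz0 g hg
          have e1 : φ (g0⁻¹ * g) = 0 := by rw [hφ, hinv, hg0, hg]; abel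
          have e2 : g z = g0 ((g0⁻¹ * g) z) := by
            rw [← AlgEquiv.mul_apply]; congr 1; group
          rcases hYsign z hz _ e1 with e | e <;> rcases hz0 with e' | e' <;>
            simp [e2, e, e']
        by_cases hz : y + g0 y = 0
        · refine ⟨y, hy0, hy, fun g hg => ?_⟩
          rcases Finset.mem_insert.mp hg with hg | hg
          · exact step y hy (Or.inr (eq_neg_of_add_eq_zero_right hz)) g hg
          · exact hys g hg
        · have hY' : Y (y + g0 y) := fun h hh => by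
            rw [map_add, add_mul, hy h hh, hYg y hy g0 h hh]; ring
          refine ⟨y + g0 y, hz, hY', fun g hg => ?_⟩
          rcases Finset.mem_insert.mp hg with hg | hg
          · exact step _ hY' (Or.inl (by rw [map_add, hYsq y hy, add_comm])) g hg
          · rw [map_add, hYcomm y hy g g0]
            rcases hys g hg with e | e
            · left; rw [e]
            · right; rw [e, map_neg]; ring
      · refine ⟨y, hy0, hy, fun g hg => ?_⟩
        rcases Finset.mem_insert.mp hg with hg | hg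
        · exact absurd ⟨g, hg⟩ ht
        · exact hys g hg
  obtain ⟨y, h0, hy, hs⟩ := key Finset.univ
  exact ⟨y, h0, fun g => hs g (Finset.mem_univ _), hy⟩

end Pool.Agent.QD4
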