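import Mathlib

namespace Pool.Agent.QD4

/-- `L` is a Galois extension of `F` whose Galois group is isomorphic to `Γ`. -/
def HasGroup {F Ω : Type*} [Field F] [Field Ω] [Algebra F Ω] (Γ : Type) [Group Γ]
    (L : IntermediateField F Ω) : Prop :=
  IsGalois F L ∧ Nonempty ((L ≃ₐ[F] L) ≃* Γ)

/-- `-1` is not a square but is a sum of two squares, and every sum of two squares is plus or
minus a square. -/
def Exceptional (F : Type*) [Field F] : Prop :=
  ¬ IsSquare (-1 : F) ∧ (∃ p q : F, p ^ 2 + q ^ 2 = -1) ∧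
    ∀ u v : F, IsSquare (u ^ 2 + v ^ 2) ∨ IsSquare (-(u ^ 2 + v ^ 2))

end Pool.Agent.QD4
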