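import Pool.Agent.Lib.MP_0ba956_nt.Basic

namespace Pool.Agent.QD4

open DihedralGroup

variable {F Ω : Type*} [Field F] [Field Ω] [Algebra F Ω]

/-- the action of the dihedral group on the four vertices -/
def act : DihedralGroup 4 → ZMod 4 → ZMod 4
  | r i, n => n + i
  | sr j, n => -j - n

/-- first character of the dihedral group -/
def pD : DihedralGroup 4 → ZMod 2
  | r i => if i = 0 ∨ i = 2 then 0 else 1
  | sr j => if j = 0 ∨ j = 2 then 0 else 1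

/-- second character of the dihedral group -/
def qD : DihedralGroup 4 → ZMod 2
  | r i => if i = 0 ∨ i = 2 then 0 else 1
  | sr j => if j = 0 ∨ j = 2 then 1 else 0

lemma act_mul : ∀ (d d' : DihedralGroup 4) (n : ZMod 4), act (d * d') n = act d (act d' n) := by
  decide

lemma act_inj : ∀ d d' : DihedralGroup 4, act d 0 = act d' 0 → act d 1 = act d' 1 → d = d' := by
  decide

lemma act_one : ∀ n : ZMod 4, act 1 n = n := by decide

lemma pD_mul : ∀ d d' : DihedralGroup 4, pD (d * d') = pD d + pD d' := by decide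

lemma qD_mul : ∀ d d' : DihedralGroup 4, qD (d * d') = qD d + qD d' := by decide

lemma sq_D : ∀ d : DihedralGroup 4, pD d * qD d = 0 → d * d = 1 := by decide

lemma gen_D : ∀ x y : DihedralGroup 4, pD x = 1 → qD x = 0 → pD y = 0 → qD y = 1 →
    ∀ d, ∃ n : Fin 4, d = (x * y) ^ n.val ∨ d = (x * y) ^ n.val * x := by decide

lemma all_D : ∀ d : DihedralGroup 4, d = r 0 ∨ d = r 1 ∨ d = r 2 ∨ d = r 3 ∨
    d = sr 0 ∨ d = sr 1 ∨ d = sr 2 ∨ d = sr 3 := by decide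

lemma all_4 : ∀ n : ZMod 4, n = 0 ∨ n = 1 ∨ n = 2 ∨ n = 3 := by decide

/-- the four roots -/
def rt (γ γ' : Ω) (n : ZMod 4) : Ω :=
  if n = 0 then γ else if n = 1 then γ' else if n = 2 then -γ else -γ'

lemma rt0 (γ γ' : Ω) : rt γ γ' 0 = γ := by simp [rt]
lemma rt1 (γ γ' : Ω) : rt γ γ' 1 = γ' := by
  simp [rt, show (1 : ZMod 4) ≠ 0 by decide]
lemma rt2 (γ γ' : Ω) : rt γ γ' 2 = -γ := by
  simp [rt, show (2 : ZMod 4) ≠ 0 by decide, show (2 : ZMod 4) ≠ 1 by decide]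
lemma rt3 (γ γ' : Ω) : rt γ γ' 3 = -γ' := by
  simp [rt, show (3 : ZMod 4) ≠ 0 by decide, show (3 : ZMod 4) ≠ 1 by decide,
    show (3 : ZMod 4) ≠ 2 by decide]

lemma rt_add (γ γ' : Ω) (n : ZMod 4) : rt γ γ' (n + 2) = -rt γ γ' n := by
  rcases all_4 n with rfl | rfl | rfl | rfl
  · rw [show (0 + 2 : ZMod 4) = 2 by decide, rt2, rt0]
  · rw [show (1 + 2 : ZMod 4) = 3 by decide, rt3, rt1]
  · rw [show (2 + 2 : ZMod 4) = 0 by decide, rt2, rt0, neg_neg]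
  · rw [show (3 + 2 : ZMod 4) = 1 by decide, rt3, rt1, neg_neg]

lemma act_add : ∀ (d : DihedralGroup 4) (n : ZMod 4), act d (n + 2) = act d n + 2 := by decide

/-- `g` permutes the four roots as `d` does -/
def Lab (γ γ' : Ω) (g : Ω ≃ₐ[F] Ω) (d : DihedralGroup 4) : Prop :=
  g γ = rt γ γ' (act d 0) ∧ g γ' = rt γ γ' (act d 1)

lemma Lab.all {γ γ' : Ω} {g : Ω ≃ₐ[F] Ω} {d : DihedralGroup 4} (h : Lab γ γ' g d) (n : ZMod 4) :
    g (rt γ γ' n) = rt γ γ' (act d n) := by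
  rcases all_4 n with rfl | rfl | rfl | rfl
  · rw [rt0, h.1]
  · rw [rt1, h.2]
  · rw [rt2, map_neg, h.1, ← rt_add, ← act_add]; rfl
  · rw [rt3, map_neg, h.2, ← rt_add, ← act_add]; rfl

lemma Lab.ty {γ γ' : Ω} {g : Ω ≃ₐ[F] Ω} {d : DihedralGroup 4} (h : Lab γ γ' g d) :
    g (γ ^ 2 - γ' ^ 2) = sg Ω (pD d) * (γ ^ 2 - γ' ^ 2) ∧
      g (2 * (γ * γ')) = sg Ω (qD d) * (2 * (γ * γ')) ∧ g (γ ^ 2 + γ' ^ 2) = γ ^ 2 + γ' ^ 2 := by
  obtain ⟨h1, h2⟩ := h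
  simp only [map_sub, map_add, map_mul, map_pow, map_ofNat, h1, h2]
  rcases all_D d with rfl | rfl | rfl | rfl | rfl | rfl | rfl | rfl
  · rw [show act (r 0) 0 = 0 by decide, show act (r 0) 1 = 1 by decide,
      show pD (r 0) = 0 by decide, show qD (r 0) = 0 by decide, rt0, rt1]
    simp
  · rw [show act (r 1) 0 = 1 by decide, show act (r 1) 1 = 2 by decide,
      show pD (r 1) = 1 by decide, show qD (r 1) = 1 by decide, rt1, rt2]
    simp only [sg_one]; refine ⟨by ring, by ring, by ring⟩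
  · rw [show act (r 2) 0 = 2 by decide, show act (r 2) 1 = 3 by decide,
      show pD (r 2) = 0 by decide, show qD (r 2) = 0 by decide, rt2, rt3]
    simp
  · rw [show act (r 3) 0 = 3 by decide, show act (r 3) 1 = 0 by decide,
      show pD (r 3) = 1 by decide, show qD (r 3) = 1 by decide, rt3, rt0]
    simp only [sg_one]; refine ⟨by ring, by ring, by ring⟩
  · rw [show act (sr 0) 0 = 0 by decide, show act (sr 0) 1 = 3 by decide,
      show pD (sr 0) = 0 by decide, show qD (sr 0) = 1 by decide, rt3, rt0]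
    simp only [sg_one, sg_zero]; refine ⟨by ring, by ring, by ring⟩
  · rw [show act (sr 1) 0 = 3 by decide, show act (sr 1) 1 = 2 by decide,
      show pD (sr 1) = 1 by decide, show qD (sr 1) = 0 by decide, rt3, rt2]
    simp only [sg_one, sg_zero]; refine ⟨by ring, by ring, by ring⟩
  · rw [show act (sr 2) 0 = 2 by decide, show act (sr 2) 1 = 1 by decide,
      show pD (sr 2) = 0 by decide, show qD (sr 2) = 1 by decide, rt1, rt2]
    simp only [sg_one, sg_zero]; refine ⟨by ring, by ring, by ring⟩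
  · rw [show act (sr 3) 0 = 1 by decide, show act (sr 3) 1 = 0 by decide,
      show pD (sr 3) = 1 by decide, show qD (sr 3) = 0 by decide, rt1, rt0]
    simp only [sg_one, sg_zero]; refine ⟨by ring, by ring, by ring⟩

lemma rt_inj (h2 : (2 : Ω) ≠ 0) {γ γ' : Ω} (h0 : γ ≠ 0) (h0' : γ' ≠ 0)
    (hα : γ ^ 2 - γ' ^ 2 ≠ 0) {m n : ZMod 4} (h : rt γ γ' m = rt γ γ' n) : m = n := by
  have a1 := ne_neg_of h2 h0
  have a2 := ne_neg_of h2 h0'
  have a3 : γ ≠ γ' := fun e => hα (by rw [e]; ring)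
  have a4 : γ ≠ -γ' := fun e => hα (by rw [e]; ring)
  have a5 : γ' ≠ -γ := fun e => hα (by rw [e]; ring)
  rcases all_4 m with rfl | rfl | rfl | rfl <;> rcases all_4 n with rfl | rfl | rfl | rfl <;>
    simp only [rt0, rt1, rt2, rt3, neg_inj] at h <;>
    first
      | rfl
      | exact absurd h (by assumption)
      | exact absurd h.symm (by assumption)

/-- the data of a dihedral field -/
structure Dat (p q : (Ω ≃ₐ[F] Ω) → ZMod 2) (γ γ' : Ω) : Prop where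
  ne : γ ≠ 0
  ne' : γ' ≠ 0
  neα : γ ^ 2 - γ' ^ 2 ≠ 0
  tα : Ty (γ ^ 2 - γ' ^ 2) p
  tβ : Ty (2 * (γ * γ')) q
  tT : Ty (γ ^ 2 + γ' ^ 2) (0 : (Ω ≃ₐ[F] Ω) → ZMod 2)

lemma Dat.rel (h2 : (2 : Ω) ≠ 0) {p q : (Ω ≃ₐ[F] Ω) → ZMod 2} {γ γ' : Ω} (h : Dat p q γ γ') :
    Rel p q :=
  ⟨_, _, _, h.neα, mul_ne_zero h2 (mul_ne_zero h.ne h.ne'), h.tα, h.tβ, h.tT, by ring⟩

lemma Rel.dat [IsSepClosed Ω] (h2 : (2 : Ω) ≠ 0) {p q : (Ω ≃ₐ[F] Ω) → ZMod 2} (h : Rel p q) :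
    ∃ γ γ' : Ω, Dat p q γ γ' := by
  obtain ⟨α, β, T, h1, h3, h4, h5, h6, h7⟩ := h
  have : NeZero (2 : Ω) := ⟨h2⟩
  obtain ⟨γ, hγ⟩ := IsSepClosed.exists_eq_mul_self ((T + α) / 2)
  have hTα : T + α ≠ 0 := fun e => h3 (by
    have : β ^ 2 = 0 := by linear_combination (T - α) * e - h7
    exact pow_eq_zero_iff (two_ne_zero) |>.mp this)
  have hγ0 : γ ≠ 0 := fun e => hTα (by
    rw [e, mul_zero, div_eq_zero_iff] at hγ
    exact hγ.resolve_right h2)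
  have e1 : 2 * γ ^ 2 = T + α := by rw [pow_two, ← hγ]; field_simp
  have e2 : 2 * (γ * (β / (2 * γ))) = β := by field_simp
  have e3 : 2 * (β / (2 * γ)) ^ 2 = T - α := by
    apply mul_left_cancel₀ hTα
    rw [← e1]
    have : 2 * γ ^ 2 * (2 * (β / (2 * γ)) ^ 2) = (2 * (γ * (β / (2 * γ)))) ^ 2 := by ring
    rw [this, e2, e1]
    linear_combination -h7
  have e4 : γ ^ 2 - (β / (2 * γ)) ^ 2 = α :=
    mul_left_cancel₀ h2 (by linear_combination e1 - e3)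
  have e5 : γ ^ 2 + (β / (2 * γ)) ^ 2 = T :=
    mul_left_cancel₀ h2 (by linear_combination e1 + e3)
  exact ⟨γ, β / (2 * γ), hγ0, div_ne_zero h3 (mul_ne_zero h2 hγ0), by rwa [e4], by rwa [e4],
    by rwa [e2], by rwa [e5]⟩

lemma Dat.twist {p q ψ : (Ω ≃ₐ[F] Ω) → ZMod 2} {γ γ' ε : Ω} (h : Dat p q γ γ') (h0 : ε ≠ 0)
    (hε : Ty ε ψ) : Dat p q (ε * γ) (ε * γ') := by
  have hs : Ty (ε * ε) (0 : (Ω ≃ₐ[F] Ω) → ZMod 2) := (hε.mul hε).congr (fun_add_self ψ)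
  have e1 : (ε * γ) ^ 2 - (ε * γ') ^ 2 = ε * ε * (γ ^ 2 - γ' ^ 2) := by ring
  have e2 : 2 * (ε * γ * (ε * γ')) = ε * ε * (2 * (γ * γ')) := by ring
  have e3 : (ε * γ) ^ 2 + (ε * γ') ^ 2 = ε * ε * (γ ^ 2 + γ' ^ 2) := by ring
  refine ⟨mul_ne_zero h0 h.ne, mul_ne_zero h0 h.ne', ?_, ?_, ?_, ?_⟩
  · rw [e1]; exact mul_ne_zero (mul_ne_zero h0 h0) h.neα
  · rw [e1]; exact (hs.mul h.tα).congr (zero_add p)
  · rw [e2]; exact (hs.mul h.tβ).congr (zero_add q)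
  · rw [e3]; exact (hs.mul h.tT).congr (zero_add _)

lemma Dat.lab (h2 : (2 : Ω) ≠ 0) {p q : (Ω ≃ₐ[F] Ω) → ZMod 2} {γ γ' : Ω} (h : Dat p q γ γ')
    (g : Ω ≃ₐ[F] Ω) : ∃ d, Lab γ γ' g d := by
  have e1 := h.tα g
  have e3 := ty_zero.mp h.tT g
  simp only [map_sub, map_add, map_pow] at e1 e3
  rcases bit (p g) with hp | hp
  · rw [hp, sg_zero] at e1
    have a1 : g γ ^ 2 = γ ^ 2 := mul_left_cancel₀ h2 (by linear_combination e1 + e3)
    have a2 : g γ' ^ 2 = γ' ^ 2 := mul_left_cancel₀ h2 (by linear_combination e3 - e1)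
    rcases sq_eq_sq_iff_eq_or_eq_neg.mp a1 with b1 | b1 <;>
      rcases sq_eq_sq_iff_eq_or_eq_neg.mp a2 with b2 | b2
    · exact ⟨r 0, by rw [b1, show act (r 0) 0 = 0 by decide, rt0],
        by rw [b2, show act (r 0) 1 = 1 by decide, rt1]⟩
    · exact ⟨sr 0, by rw [b1, show act (sr 0) 0 = 0 by decide, rt0],
        by rw [b2, show act (sr 0) 1 = 3 by decide, rt3]⟩
    · exact ⟨sr 2, by rw [b1, show act (sr 2) 0 = 2 by decide, rt2],
        by rw [b2, show act (sr 2) 1 = 1 by decide, rt1]⟩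
    · exact ⟨r 2, by rw [b1, show act (r 2) 0 = 2 by decide, rt2],
        by rw [b2, show act (r 2) 1 = 3 by decide, rt3]⟩
  · rw [hp, sg_one] at e1
    have a1 : g γ ^ 2 = γ' ^ 2 := mul_left_cancel₀ h2 (by linear_combination e1 + e3)
    have a2 : g γ' ^ 2 = γ ^ 2 := mul_left_cancel₀ h2 (by linear_combination e3 - e1)
    rcases sq_eq_sq_iff_eq_or_eq_neg.mp a1 with b1 | b1 <;>
      rcases sq_eq_sq_iff_eq_or_eq_neg.mp a2 with b2 | b2
    · exact ⟨sr 3, by rw [b1, show act (sr 3) 0 = 1 by decide, rt1],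
        by rw [b2, show act (sr 3) 1 = 0 by decide, rt0]⟩
    · exact ⟨r 1, by rw [b1, show act (r 1) 0 = 1 by decide, rt1],
        by rw [b2, show act (r 1) 1 = 2 by decide, rt2]⟩
    · exact ⟨r 3, by rw [b1, show act (r 3) 0 = 3 by decide, rt3],
        by rw [b2, show act (r 3) 1 = 0 by decide, rt0]⟩
    · exact ⟨sr 1, by rw [b1, show act (sr 1) 0 = 3 by decide, rt3],
        by rw [b2, show act (sr 1) 1 = 2 by decide, rt2]⟩

lemma Dat.chars (h2 : (2 : Ω) ≠ 0) {p q : (Ω ≃ₐ[F] Ω) → ZMod 2} {γ γ' : Ω} (h : Dat p q γ γ')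
    {g : Ω ≃ₐ[F] Ω} {d : DihedralGroup 4} (hd : Lab γ γ' g d) : p g = pD d ∧ q g = qD d :=
  ⟨sg_inj h2 h.neα ((h.tα g).symm.trans hd.ty.1),
    sg_inj h2 (mul_ne_zero h2 (mul_ne_zero h.ne h.ne')) ((h.tβ g).symm.trans hd.ty.2.1)⟩

lemma act_sq : ∀ d : DihedralGroup 4, (pD d * qD d = 0 ∧ act d (act d 0) = 0) ∨
    (pD d * qD d = 1 ∧ act d (act d 0) = 2) := by decide

lemma Dat.gg (h2 : (2 : Ω) ≠ 0) {p q : (Ω ≃ₐ[F] Ω) → ZMod 2} {γ γ' : Ω} (h : Dat p q γ γ')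
    (g : Ω ≃ₐ[F] Ω) : g (g γ) = sg Ω (p g * q g) * γ := by
  obtain ⟨d, hd⟩ := h.lab h2 g
  rw [(h.chars h2 hd).1, (h.chars h2 hd).2, hd.1, hd.all]
  rcases act_sq d with ⟨a, b⟩ | ⟨a, b⟩
  · rw [a, b, rt0, sg_zero, one_mul]
  · rw [a, b, rt2, sg_one, neg_one_mul]

lemma Dat.sign (h2 : (2 : Ω) ≠ 0) {p q : (Ω ≃ₐ[F] Ω) → ZMod 2} {γ γ' : Ω} (h : Dat p q γ γ')
    (g : Ω ≃ₐ[F] Ω) (hp : p g = 0) : g γ = γ ∨ g γ = -γ := by
  have e1 := h.tα g
  have e3 := ty_zero.mp h.tT g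
  simp only [map_sub, map_add, map_pow] at e1 e3
  rw [hp, sg_zero] at e1
  exact sq_eq_sq_iff_eq_or_eq_neg.mp (mul_left_cancel₀ h2 (by linear_combination e1 + e3))

lemma Dat.fix (h2 : (2 : Ω) ≠ 0) {p q : (Ω ≃ₐ[F] Ω) → ZMod 2} {γ γ' : Ω} (h : Dat p q γ γ')
    {g : Ω ≃ₐ[F] Ω} (h1 : g γ = γ) (h1' : g γ' = γ') : p g = 0 ∧ q g = 0 :=
  h.chars h2 (d := r 0) ⟨by rw [h1, show act (r 0) 0 = 0 by decide, rt0],
    by rw [h1', show act (r 0) 1 = 1 by decide, rt1]⟩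

/-- independent data give a dihedral field -/
lemma Dat.field [IsGalois F Ω] (h2 : (2 : Ω) ≠ 0) {p q : (Ω ≃ₐ[F] Ω) → ZMod 2} {γ γ' : Ω}
    (h : Dat p q γ γ') (hx : ∃ g, p g = 1 ∧ q g = 0) (hy : ∃ g, p g = 0 ∧ q g = 1) :
    ∃ L : IntermediateField F Ω, HasGroup (DihedralGroup 4) L ∧ γ ∈ L ∧ γ' ∈ L := by
  choose f hf using h.lab h2
  have uniq : ∀ g d, Lab γ γ' g d → f g = d := fun g d hd =>
    act_inj _ _ (rt_inj h2 h.ne h.ne' h.neα ((hf g).1.symm.trans hd.1))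
      (rt_inj h2 h.ne h.ne' h.neα ((hf g).2.symm.trans hd.2))
  let ρ : (Ω ≃ₐ[F] Ω) →* DihedralGroup 4 := MonoidHom.mk' f fun g g' => uniq _ _
    ⟨by rw [AlgEquiv.mul_apply, (hf g').1, (hf g).all, act_mul],
      by rw [AlgEquiv.mul_apply, (hf g').2, (hf g).all, act_mul]⟩
  have hs : Function.Surjective ρ := by
    obtain ⟨x, hx1, hx2⟩ := hx
    obtain ⟨y, hy1, hy2⟩ := hy
    intro d
    obtain ⟨n, hn | hn⟩ := gen_D (f x) (f y) ((h.chars h2 (hf x)).1.symm.trans hx1)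
      ((h.chars h2 (hf x)).2.symm.trans hx2) ((h.chars h2 (hf y)).1.symm.trans hy1)
      ((h.chars h2 (hf y)).2.symm.trans hy2) d
    · exact ⟨(x * y) ^ n.val, by rw [map_pow, map_mul, hn]; rfl⟩
    · exact ⟨(x * y) ^ n.val * x, by rw [map_mul, map_pow, map_mul, hn]; rfl⟩
  obtain ⟨L, hL, hm⟩ := hasGroup_of ρ hs {γ, γ'} fun g => by
    constructor
    · intro hg x hx
      have := hf g
      rw [show f g = 1 from hg] at this
      rcases hx with rfl | rfl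
      · rw [this.1, act_one, rt0]
      · rw [this.2, act_one, rt1]
    · intro hg
      exact uniq g 1 ⟨by rw [act_one, rt0]; exact hg _ (by simp),
        by rw [act_one, rt1]; exact hg _ (by simp)⟩
  exact ⟨L, hL, hm _ (by simp), hm _ (by simp)⟩

/-- a dihedral field gives a norm relation -/
lemma Pres.rel (h2 : (2 : Ω) ≠ 0) {L : IntermediateField F Ω}
    {ρ : (Ω ≃ₐ[F] Ω) →* DihedralGroup 4} (h : Pres L ρ) (hL : ∀ g : Ω ≃ₐ[F] Ω, ∀ x ∈ L, g x ∈ L) :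
    Rel (fun g => pD (ρ g)) (fun g => qD (ρ g)) := by
  choose s hs using h.1
  have hmul : ∀ (g : Ω ≃ₐ[F] Ω) d, ∀ x ∈ L, g (s d x) = s (ρ g * d) x := fun g d x hx => by
    rw [← AlgEquiv.mul_apply]
    exact h.eq (by rw [map_mul, hs, hs]) hx
  have hone : ∀ x ∈ L, s 1 x = x := (h.2 _).mp (hs 1)
  obtain ⟨γ, hγL, hγ0, hγs, hγz⟩ : ∃ γ ∈ L, γ ≠ 0 ∧ s (sr 0) γ = γ ∧ s (r 2) γ = -γ := by
    have : ¬ ∀ x ∈ L, s (r 2) x = x := fun e => by
      have := (h.2 _).mpr e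
      rw [hs] at this
      exact absurd this (by decide)
    push Not at this
    obtain ⟨y, hy, hyz⟩ := this
    obtain ⟨x, hx, hx0, hxz⟩ : ∃ x ∈ L, x ≠ 0 ∧ s (r 2) x = -x :=
      ⟨y - s (r 2) y, L.sub_mem hy (hL _ _ hy), sub_ne_zero.mpr hyz.symm, by
        rw [map_sub, hmul _ _ _ hy, hs, show (r 2 * r 2 : DihedralGroup 4) = 1 by decide,
          hone y hy, neg_sub]⟩
    have hz : ∀ d, s (d * r 2) x = -s d x := fun d => by
      rw [← map_neg, ← hxz, hmul _ _ _ hx, hs]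
    by_cases hc : x + s (sr 0) x = 0
    · refine ⟨s (r 1) x, hL _ _ hx, by simpa using hx0, ?_, ?_⟩
      · have e : s (sr 0) x = -x := eq_neg_of_add_eq_zero_right hc
        have : s (r 1) (s (sr 0) x) = -s (r 1) x := by rw [e, map_neg]
        rw [hmul _ _ _ hx, hs] at this
        rw [hmul _ _ _ hx, hs,
          show (sr 0 * r 1 : DihedralGroup 4) = r 1 * sr 0 * r 2 by decide, hz, this, neg_neg]
      · rw [hmul _ _ _ hx, hs, show (r 2 * r 1 : DihedralGroup 4) = r 1 * r 2 by decide, hz]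
    · refine ⟨x + s (sr 0) x, L.add_mem hx (hL _ _ hx), hc, ?_, ?_⟩
      · rw [map_add, hmul _ _ _ hx, hs, show (sr 0 * sr 0 : DihedralGroup 4) = 1 by decide,
          hone x hx, add_comm]
      · rw [map_add, hmul _ _ _ hx, hs, show (r 2 * sr 0 : DihedralGroup 4) = sr 0 * r 2 by decide,
          hz, hxz, neg_add]
  have hz : ∀ d, s (d * r 2) γ = -s d γ := fun d => by
    rw [← map_neg, ← hγz, hmul _ _ _ hγL, hs]
  have hf : ∀ d, s (d * sr 0) γ = s d γ := fun d => by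
    conv_rhs => rw [← hγs, hmul _ _ _ hγL, hs]
  have hr : ∀ i, s (r i) γ = rt γ (s (r 1) γ) i := fun i => by
    rcases all_4 i with rfl | rfl | rfl | rfl
    · rw [rt0]; exact hone γ hγL
    · rw [rt1]
    · rw [rt2, hγz]
    · rw [rt3, ← hz]; rfl
  have hd : ∀ d, s d γ = rt γ (s (r 1) γ) (act d 0) := fun d => by
    have : ∀ d : DihedralGroup 4, d = r (act d 0) ∨ d = r (act d 0) * sr 0 := by decide
    rcases this d with e | e
    · rw [← hr, ← e]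
    · rw [← hr, ← hf (r _), ← e]
  have hlab : ∀ g : Ω ≃ₐ[F] Ω, Lab γ (s (r 1) γ) g (ρ g) := fun g =>
    ⟨by rw [← hd]; exact h.eq (hs _).symm hγL, by
      rw [hmul _ _ _ hγL, hd (ρ g * r 1), act_mul]; rfl⟩
  have h0' : s (r 1) γ ≠ 0 := by simpa using hγ0
  refine Dat.rel h2 (γ := γ) (γ' := s (r 1) γ) ⟨hγ0, h0', ?_, fun g => (hlab g).ty.1,
    fun g => (hlab g).ty.2.1, ty_zero.mpr fun g => (hlab g).ty.2.2⟩
  intro e
  have e1 := (hlab (s (sr 0))).2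
  rw [hs, show act (sr 0) 1 = 3 by decide, rt3] at e1
  rcases sq_eq_sq_iff_eq_or_eq_neg.mp (sub_eq_zero.mp e) with e | e
  · rw [← e, hγs] at e1
    exact ne_neg_of h2 hγ0 e1
  · have e2 : s (r 1) γ = -γ := by rw [eq_comm, neg_eq_iff_eq_neg]; exact e
    rw [e2, map_neg, hγs] at e1
    exact ne_neg_of h2 (neg_ne_zero.mpr hγ0) e1

end Pool.Agent.QD4
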