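import Pool.Agent.Lib.MP_0ba956_nt.Defs

namespace Pool.Agent.QD4

variable {F : Type*} [Field F]

/-- nonzero values of the form `u^2 + c v^2` -/
def Val (c y : F) : Prop := y ≠ 0 ∧ ∃ u v : F, y = u ^ 2 + c * v ^ 2

/-- plus or minus a square -/
def PM (y : F) : Prop := IsSquare y ∨ IsSquare (-y)

lemma Val.mul {c y z : F} (hy : Val c y) (hz : Val c z) : Val c (y * z) := by
  obtain ⟨h1, u, v, rfl⟩ := hy
  obtain ⟨h2, s, t, rfl⟩ := hz
  exact ⟨mul_ne_zero h1 h2, u * s - c * v * t, u * t + v * s, by ring⟩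

lemma Val.div {c y z : F} (hyz : Val c (y * z)) (hy : Val c y) : Val c z := by
  obtain ⟨h1, u, v, e⟩ := hyz.mul hy
  have h0 := hy.1
  refine ⟨right_ne_zero_of_mul hyz.1, u / y, v / y, ?_⟩
  field_simp
  linear_combination e

lemma val_self {c : F} (hc : c ≠ 0) : Val c c := ⟨hc, 0, 1, by ring⟩

lemma sq_of_mul {y k : F} (hk : k ≠ 0) (h : IsSquare (y * k ^ 2)) : IsSquare y := by
  obtain ⟨m, hm⟩ := h
  refine ⟨m / k, ?_⟩
  field_simp
  linear_combination hm

lemma PM.of_mul {y k : F} (hk : k ≠ 0) (h : PM (y * k ^ 2)) : PM y := by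
  rcases h with h | h
  · exact Or.inl (sq_of_mul hk h)
  · exact Or.inr (sq_of_mul hk (by rwa [neg_mul]))

lemma PM.neg {y : F} (h : PM (-y)) : PM y := by
  rcases h with h | h
  · exact Or.inr h
  · exact Or.inl (by rwa [neg_neg] at h)

lemma sum_ne (h : ¬ IsSquare (-1 : F)) {u v : F} (hv : v ≠ 0) : u ^ 2 + v ^ 2 ≠ 0 := fun e =>
  h (sq_of_mul hv ⟨u, by linear_combination -e⟩)

lemma neg1 (hE : Exceptional F) {c y : F} (hc : ¬ PM c) (hy : Val c y) : ¬ IsSquare (-y) := by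
  rintro ⟨k, hk⟩
  obtain ⟨h0, u, v, e⟩ := hy
  have hk0 : k ≠ 0 := fun h => h0 (by rw [h] at hk; linear_combination -hk)
  have hv : v ≠ 0 := fun h => sum_ne hE.1 (u := u) hk0 (by rw [h] at e; linear_combination -hk - e)
  have : -c * v ^ 2 = u ^ 2 + k ^ 2 := by linear_combination hk + e
  exact hc (PM.neg (PM.of_mul hv (this ▸ hE.2.2 u k)))

lemma both (hE : Exceptional F) {c y : F} (hc : ¬ PM c) (hy : Val c y) (hy' : Val (-c) y) :
    PM y := by
  obtain ⟨_, u, v, e⟩ := hy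
  obtain ⟨_, s, t, e'⟩ := hy'
  by_cases hv : v = 0
  · exact Or.inl ⟨u, by rw [e, hv]; ring⟩
  by_cases ht : t = 0
  · exact Or.inl ⟨s, by rw [e', ht]; ring⟩
  have hc0 : c ≠ 0 := fun h => hc (Or.inl ⟨0, by rw [h]; ring⟩)
  have key : y * (u + s) ^ 2 = (u * s + y) ^ 2 + (c * v * t) ^ 2 := by
    have a1 : u ^ 2 - y = -c * v ^ 2 := by linear_combination -e
    have a2 : s ^ 2 - y = c * t ^ 2 := by linear_combination -e'
    have : (u ^ 2 - y) * (s ^ 2 - y) = -(c * v * t) ^ 2 := by rw [a1, a2]; ring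
    linear_combination -this
  have hus : u + s ≠ 0 := fun h => sum_ne hE.1 (u := u * s + y)
    (mul_ne_zero (mul_ne_zero hc0 hv) ht) (by rw [← key, h]; ring)
  exact PM.of_mul hus (key ▸ hE.2.2 _ _)

lemma star (hE : Exceptional F) {c w z : F} (hw : Val c w) (hz : Val w z) :
    Val c z ∨ Val (-c) (-z) := by
  obtain ⟨_, u, v, e⟩ := hw
  obtain ⟨h0, s, t, e'⟩ := hz
  rcases hE.2.2 s (u * t) with ⟨m, hm⟩ | ⟨m, hm⟩
  · exact Or.inl ⟨h0, m, v * t, by rw [e', e]; linear_combination hm⟩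
  · exact Or.inr ⟨neg_ne_zero.mpr h0, m, v * t, by rw [e', e]; linear_combination hm⟩

lemma step1 (hE : Exceptional F) {c w z : F} (hc : ¬ PM c) (hw : Val c w) (hw' : ¬ IsSquare w)
    (hz : Val w z) : Val c z := by
  rcases star hE hw hz with h | h
  · exact h
  rcases star hE hw ((val_self hw.1).mul hz) with h' | h'
  · exact h'.div hw
  · have : Val (-c) w := Val.div (y := -z) (by rwa [neg_mul, mul_comm z]) h
    exact absurd ((both hE hc hw this).resolve_left hw') (neg1 hE hc hw)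

lemma step2 (hE : Exceptional F) {c y : F} (hc : ¬ PM c) (hy : Val c y) (hy' : ¬ IsSquare y) :
    Val (-c) (-y) := by
  obtain ⟨p, q, hpq⟩ := hE.2.1
  have hn := neg1 hE hc hy
  obtain ⟨h0, u, v, e⟩ := hy
  have hv : v ≠ 0 := fun h => hy' ⟨u, by rw [e, h]; ring⟩
  have hw0 : (q * u) ^ 2 + -c * v ^ 2 ≠ 0 := fun h =>
    hc (Or.inl (sq_of_mul hv ⟨q * u, by linear_combination -h⟩))
  have e2 : -y = (p * u) ^ 2 + ((q * u) ^ 2 + -c * v ^ 2) * 1 ^ 2 := by
    rw [e]; linear_combination (-u ^ 2) * hpq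
  refine step1 hE (fun h => hc h.neg) ⟨hw0, q * u, v, rfl⟩ ?_ ⟨neg_ne_zero.mpr h0, p * u, 1, e2⟩
  rintro ⟨m, hm⟩
  have : -y = (p * u) ^ 2 + m ^ 2 := by rw [e2, hm]; ring
  rcases hE.2.2 (p * u) m with h | h
  · exact hn (this ▸ h)
  · exact hy' (by rwa [← this, neg_neg] at h)

/-- exceptional fields are rigid -/
lemma rigid (hE : Exceptional F) {A B T : F} (hT : T ^ 2 = A + B) (hA : ¬ IsSquare A)
    (hB : ¬ IsSquare B) (hAB : ¬ IsSquare (A * B)) : IsSquare (-A * B) := by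
  have hc : ¬ PM (-A) := by
    rintro (⟨s, hs⟩ | h)
    · have : B = T ^ 2 + s ^ 2 := by linear_combination hs - hT
      rcases hE.2.2 T s with h | ⟨k, hk⟩
      · exact hB (this ▸ h)
      · rw [← this] at hk
        exact hAB ⟨s * k, by linear_combination (-B) * hs + (s * s) * hk⟩
    · exact hA (by rwa [neg_neg] at h)
  have hc' : ¬ PM (- -A) := fun h => hc h.neg
  have hA0 : A ≠ 0 := fun h => hA ⟨0, by rw [h]; ring⟩
  have hB0 : B ≠ 0 := fun h => hB ⟨0, by rw [h]; ring⟩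
  have v1 : Val (-A) B := ⟨hB0, T, 1, by linear_combination -hT⟩
  have v2 : Val (-A) (-A * B) := (val_self (neg_ne_zero.mpr hA0)).mul v1
  by_contra hn
  have w1 := step2 hE hc v1 hB
  have w2 := step2 hE hc v2 hn
  have w3 : Val (- -A) B := Val.div (y := - -A) (by rwa [neg_mul]) (val_self (by simpa using hA0))
  have w4 : Val (- -A) (-1) := Val.div (y := B) (by rwa [mul_neg, mul_one]) w3
  exact neg1 hE hc' w4 ⟨1, by ring⟩

end Pool.Agent.QD4
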