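import Pool.Agent.Lib.MP_0ba956_nt.Quat
import Pool.Agent.Lib.MP_0ba956_nt.Rigid

namespace Pool.Agent.QD4

variable {F Ω : Type*} [Field F] [Field Ω] [Algebra F Ω]

lemma Rel.add (h2 : (2 : Ω) ≠ 0) {p q : (Ω ≃ₐ[F] Ω) → ZMod 2} (h : Rel p q) :
    (∀ g g', p (g * g') = p g + p g') ∧ ∀ g g', q (g * g') = q g + q g' := by
  obtain ⟨α, β, T, h1, h3, h4, h5, -, -⟩ := h
  exact ⟨h4.add h2 h1, h5.add h2 h3⟩

/-- a norm relation between independent characters -/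
def Good (p q : (Ω ≃ₐ[F] Ω) → ZMod 2) : Prop := Rel p q ∧ p ≠ 0 ∧ q ≠ 0 ∧ p ≠ q

lemma Good.indep (h2 : (2 : Ω) ≠ 0) {p q : (Ω ≃ₐ[F] Ω) → ZMod 2} (h : Good p q) :
    (∃ g, p g = 1 ∧ q g = 0) ∧ ∃ g, p g = 0 ∧ q g = 1 := by
  obtain ⟨hr, hp, hq, hpq⟩ := h
  obtain ⟨ap, aq⟩ := hr.add h2
  obtain ⟨g1, h1⟩ := Function.ne_iff.mp hp
  obtain ⟨g2, h2'⟩ := Function.ne_iff.mp hq
  obtain ⟨g3, h3⟩ := Function.ne_iff.mp hpq
  have e1 : p g1 = 1 := (bit _).resolve_left h1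
  have e2 : q g2 = 1 := (bit _).resolve_left h2'
  have h11 : (1 + 1 : ZMod 2) = 0 := by decide
  rcases bit (p g3) with a | a <;> rcases bit (q g3) with b | b
  · exact absurd (a.trans b.symm) h3
  · refine ⟨?_, g3, a, b⟩
    rcases bit (q g1) with c | c
    · exact ⟨g1, e1, c⟩
    · exact ⟨g1 * g3, by rw [ap, e1, a, add_zero], by rw [aq, c, b, h11]⟩
  · refine ⟨⟨g3, a, b⟩, ?_⟩
    rcases bit (p g2) with c | c
    · exact ⟨g2, c, e2⟩
    · exact ⟨g2 * g3, by rw [ap, c, a, h11], by rw [aq, e2, b, add_zero]⟩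
  · exact absurd (a.trans b.symm) h3

/-- the interface of a quaternion field -/
structure QDat (K : IntermediateField F Ω) (Q : (Ω ≃ₐ[F] Ω) → ZMod 2) (γ : Ω) : Prop where
  ne : γ ≠ 0
  gg : ∀ g : Ω ≃ₐ[F] Ω, g (g γ) = sg Ω (Q g) * γ
  ker : ∀ g : Ω ≃ₐ[F] Ω, Q g = 0 → (g γ = γ ∨ g γ = -γ) ∧ (g γ = γ → ∀ x ∈ K, g x = x)

/-- `K` lies in a compositum of three dihedral fields -/
def Three (K : IntermediateField F Ω) : Prop :=
  ∃ L1 L2 L3 : IntermediateField F Ω, HasGroup (DihedralGroup 4) L1 ∧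
    HasGroup (DihedralGroup 4) L2 ∧ HasGroup (DihedralGroup 4) L3 ∧
    ∀ g : Ω ≃ₐ[F] Ω, (∀ x ∈ L1, g x = x) → (∀ x ∈ L2, g x = x) → (∀ x ∈ L3, g x = x) →
      ∀ x ∈ K, g x = x

lemma glue [IsSepClosed Ω] [IsGalois F Ω] (h2 : (2 : Ω) ≠ 0) {K : IntermediateField F Ω}
    {Q : (Ω ≃ₐ[F] Ω) → ZMod 2} {γ : Ω} (hK : QDat K Q γ)
    {p1 q1 p2 q2 p3 q3 : (Ω ≃ₐ[F] Ω) → ZMod 2} (G1 : Good p1 q1) (G2 : Good p2 q2)
    (G3 : Good p3 q3) (hQ : ∀ g, Q g = p1 g * q1 g + p2 g * q2 g + p3 g * q3 g) : Three K := by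
  obtain ⟨γ1, γ1', D1⟩ := G1.1.dat h2
  obtain ⟨γ2, γ2', D2⟩ := G2.1.dat h2
  obtain ⟨γ3, γ3', D3⟩ := G3.1.dat h2
  let φ : (Ω ≃ₐ[F] Ω) → ZMod 2 × ZMod 2 × ZMod 2 × ZMod 2 × ZMod 2 × ZMod 2 :=
    fun g => (p1 g, q1 g, p2 g, q2 g, p3 g, q3 g)
  have hφ : ∀ g g', φ (g * g') = φ g + φ g' := fun g g' => by
    simp only [φ, (G1.1.add h2).1, (G1.1.add h2).2, (G2.1.add h2).1, (G2.1.add h2).2,
      (G3.1.add h2).1, (G3.1.add h2).2, Prod.mk_add_mk]
  have hself : ∀ t : ZMod 2, t + t = 0 := by decide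
  have hφ2 : ∀ g, φ (g * g) = 0 := fun g => by
    rw [hφ]
    simp only [φ, Prod.mk_add_mk, hself]
    rfl
  have hδ : γ * γ1 * γ2 * γ3 ≠ 0 :=
    mul_ne_zero (mul_ne_zero (mul_ne_zero hK.ne D1.ne) D2.ne) D3.ne
  have hQ0 : ∀ g, φ g = 0 → Q g = 0 := fun g hg => by
    simp only [φ, Prod.mk_eq_zero] at hg
    rw [hQ, hg.1, hg.2.2.1, hg.2.2.2.2.1]; simp
  obtain ⟨ε, hε0, hεs, hε⟩ := eig φ hφ hφ2 hδ (fun g => by
      simp only [map_mul, hK.gg, D1.gg h2, D2.gg h2, D3.gg h2, hQ, sg_add]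
      have a1 := sg_sq (Ω := Ω) (p1 g * q1 g)
      have a2 := sg_sq (Ω := Ω) (p2 g * q2 g)
      have a3 := sg_sq (Ω := Ω) (p3 g * q3 g)
      generalize sg Ω (p1 g * q1 g) = s1 at *
      generalize sg Ω (p2 g * q2 g) = s2 at *
      generalize sg Ω (p3 g * q3 g) = s3 at *
      calc _ = (s1 * s1) * (s2 * s2) * (s3 * s3) * (γ * γ1 * γ2 * γ3) := by ring
        _ = _ := by rw [a1, a2, a3]; ring)
    (fun g hg => by
      have hq := hQ0 g hg
      simp only [φ, Prod.mk_eq_zero] at hg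
      simp only [map_mul]
      rcases (hK.ker g hq).1 with e | e <;> rcases D1.sign h2 g hg.1 with e1 | e1 <;>
        rcases D2.sign h2 g hg.2.2.1 with e2 | e2 <;>
        rcases D3.sign h2 g hg.2.2.2.2.1 with e3 | e3 <;> simp [e, e1, e2, e3])
  obtain ⟨ψ, hψ⟩ := ty_of_sign hεs
  have D1' := D1.twist hε0 hψ
  obtain ⟨L1, hL1, m1, m1'⟩ := D1'.field h2 (G1.indep h2).1 (G1.indep h2).2
  obtain ⟨L2, hL2, m2, m2'⟩ := D2.field h2 (G2.indep h2).1 (G2.indep h2).2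
  obtain ⟨L3, hL3, m3, m3'⟩ := D3.field h2 (G3.indep h2).1 (G3.indep h2).2
  refine ⟨L1, L2, L3, hL1, hL2, hL3, fun g f1 f2 f3 => ?_⟩
  have c1 := D1'.fix h2 (f1 _ m1) (f1 _ m1')
  have c2 := D2.fix h2 (f2 _ m2) (f2 _ m2')
  have c3 := D3.fix h2 (f3 _ m3) (f3 _ m3')
  have hg : φ g = 0 := by
    simp only [φ, c1.1, c1.2, c2.1, c2.2, c3.1, c3.2]; rfl
  refine (hK.ker g (hQ0 g hg)).2 ?_
  have e0 := hε g hg
  have e1 := f1 _ m1
  simp only [map_mul, f2 _ m2, f3 _ m3] at e0 e1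
  have n0 : ε * γ1 * γ2 * γ3 ≠ 0 := mul_ne_zero (mul_ne_zero (mul_ne_zero hε0 D1.ne) D2.ne) D3.ne
  apply mul_left_cancel₀ n0
  rcases D1.sign h2 g c1.1 with e | e
  · rw [e] at e0 e1
    linear_combination (γ * γ2 * γ3) * e1 - e0
  · rw [e] at e0 e1
    linear_combination (γ * γ2 * γ3) * e1 + e0

lemma eq_of_add {p q : (Ω ≃ₐ[F] Ω) → ZMod 2} (h : p + q = 0) : p = q := by
  have : p + q + q = 0 + q := by rw [h]
  rwa [add_assoc, fun_add_self, add_zero, zero_add] at this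

lemma Ty.neg {x : Ω} {p : (Ω ≃ₐ[F] Ω) → ZMod 2} (h : Ty x p) : Ty (-x) p := fun g => by
  rw [map_neg, h g]; ring

lemma Rel.shift (h2 : (2 : Ω) ≠ 0) {p q ι : (Ω ≃ₐ[F] Ω) → ZMod 2} {i : Ω} (hi : i * i = -1)
    (hι : Ty i ι) (h : Rel p q) (hne : p + q ≠ ι) : Rel p (p + q + ι) := by
  obtain ⟨α, β, T, h1, h3, h4, h5, h6, h7⟩ := h
  have hi0 : i ≠ 0 := fun e => by rw [e] at hi; simp at hi
  have hT : T ≠ 0 := fun e => hne (by
    have : α ^ 2 = (β * i) ^ 2 := by rw [e] at h7; linear_combination -h7 - β ^ 2 * hi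
    have hp : p = q + ι := by
      rcases sq_eq_sq_iff_eq_or_eq_neg.mp this with e | e
      · exact Ty.uniq h2 h1 h4 (e ▸ h5.mul hι)
      · exact Ty.uniq h2 h1 h4 (e ▸ (h5.mul hι).neg)
    rw [hp, add_comm q, add_assoc, fun_add_self, add_zero])
  exact ⟨T * α, α * β * i, α * α, mul_ne_zero hT h1, mul_ne_zero (mul_ne_zero h1 h3) hi0,
    (h6.mul h4).congr (zero_add p), (h4.mul h5).mul hι, (h4.mul h4).congr (fun_add_self p),
    by linear_combination (-α ^ 2) * h7 - α ^ 2 * β ^ 2 * hi⟩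

lemma Ty.base [IsGalois F Ω] {x : Ω} (h : Ty x (0 : (Ω ≃ₐ[F] Ω) → ZMod 2)) :
    ∃ a : F, algebraMap F Ω a = x :=
  (InfiniteGalois.mem_range_algebraMap_iff_fixed x).mpr (ty_zero.mp h)

lemma ty_zero_of_sq {x : Ω} {a : F} (h : x ^ 2 = algebraMap F Ω a) (ha : IsSquare a) :
    Ty x (0 : (Ω ≃ₐ[F] Ω) → ZMod 2) := by
  obtain ⟨s, rfl⟩ := ha
  rw [map_mul, ← pow_two] at h
  rcases sq_eq_sq_iff_eq_or_eq_neg.mp h with e | e
  · exact e ▸ ty_alg s
  · exact e ▸ (ty_alg s).neg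

lemma sq_of_ty_zero [IsGalois F Ω] {x : Ω} {a : F} (h : x ^ 2 = algebraMap F Ω a)
    (hx : Ty x (0 : (Ω ≃ₐ[F] Ω) → ZMod 2)) : IsSquare a := by
  obtain ⟨s, rfl⟩ := hx.base
  exact ⟨s, (algebraMap F Ω).injective (by rw [← h, map_mul, pow_two])⟩

/-- a cyclic quartic field splits into two dihedral fields -/
lemma split [IsSepClosed Ω] [IsGalois F Ω] (h2 : (2 : Ω) ≠ 0) (hE : ¬ Exceptional F)
    {x y : (Ω ≃ₐ[F] Ω) → ZMod 2} (hx : x ≠ 0) (hy : y ≠ 0) (hxy : x ≠ y) (rx : Rel x x)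
    (ry : Rel y (x + y)) : ∃ d, d ≠ 0 ∧ d ≠ x ∧ Rel x d ∧ Rel x (x + d) := by
  have : NeZero (2 : Ω) := ⟨h2⟩
  obtain ⟨i, hi⟩ := IsSepClosed.exists_eq_mul_self (-1 : Ω)
  have hi0 : i ≠ 0 := fun e => by rw [e] at hi; simp at hi
  obtain ⟨ι, hι⟩ : ∃ ι : (Ω ≃ₐ[F] Ω) → ZMod 2, Ty i ι := ty_of_sq fun g => by
    rw [pow_two, ← hi, map_neg, map_one]
  have c1 : y + (x + y) = x := by rw [add_comm x, ← add_assoc, fun_add_self, zero_add]
  have c2 : x + y + y = x := by rw [add_assoc, fun_add_self, add_zero]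
  by_cases h0 : ι = 0
  · subst h0
    refine ⟨y, hy, hxy.symm, ?_, ?_⟩
    · have := ry.shift h2 hi.symm hι (by rwa [c1])
      rw [c1, add_zero] at this
      exact this.symm
    · have := ry.symm.shift h2 hi.symm hι (by rwa [c2])
      rw [c2, add_zero] at this
      exact this.symm
  by_cases h1 : ι = x
  · subst h1
    have hn : ¬ IsSquare (-1 : F) := fun h =>
      h0 (Ty.uniq h2 hi0 hι (ty_zero_of_sq (a := -1) (by rw [pow_two, ← hi]; simp) h))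
    obtain ⟨p, q, hpq⟩ : ∃ p q : F, p ^ 2 + q ^ 2 = -1 := by
      obtain ⟨α, β, T, a1, a2, a3, a4, a5, a6⟩ := rx
      obtain ⟨a, ha⟩ := ((a3.mul hι).congr (fun_add_self ι)).base
      obtain ⟨b, hb⟩ := ((a4.mul hι).congr (fun_add_self ι)).base
      obtain ⟨t, ht⟩ := a5.base
      have e : a ^ 2 + b ^ 2 = -t ^ 2 := (algebraMap F Ω).injective (by
        rw [map_add, map_neg, map_pow, map_pow, map_pow, ha, hb, ht]
        linear_combination a6 - (α ^ 2 + β ^ 2) * hi)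
      have hb0 : b ≠ 0 := fun e => mul_ne_zero a2 hi0 (by rw [← hb, e, map_zero])
      have ht0 : t ≠ 0 := fun e' => sum_ne hn (u := a) hb0 (by rw [e, e']; ring)
      refine ⟨a / t, b / t, ?_⟩
      field_simp
      linear_combination e
    obtain ⟨u, v, n1, n2⟩ : ∃ u v : F, ¬ IsSquare (u ^ 2 + v ^ 2) ∧
        ¬ IsSquare (-(u ^ 2 + v ^ 2)) := by
      by_contra hc
      push Not at hc
      exact hE ⟨hn, ⟨p, q, hpq⟩, fun u v => or_iff_not_imp_left.mpr (hc u v)⟩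
    obtain ⟨σ, hσ⟩ := IsSepClosed.exists_eq_mul_self (algebraMap F Ω (u ^ 2 + v ^ 2))
    have hσ0 : σ ≠ 0 := fun e => n1 ⟨0, (algebraMap F Ω).injective (by rw [hσ, e]; simp)⟩
    obtain ⟨d, hd⟩ : ∃ d : (Ω ≃ₐ[F] Ω) → ZMod 2, Ty σ d := ty_of_sq fun g => by
      rw [pow_two, ← hσ, AlgEquiv.commutes]
    have hv : v ≠ 0 := fun e => n1 ⟨u, by rw [e]; ring⟩
    have hg : p * v + q * u ≠ 0 := fun e => n2 ⟨p * u - q * v, by
      linear_combination (-(u ^ 2 + v ^ 2)) * hpq + (p * v + q * u) * e⟩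
    have inj : ∀ {a : F}, a ≠ 0 → algebraMap F Ω a ≠ 0 := fun h => by simpa using h
    have hσ' := hσ
    rw [map_add, map_pow, map_pow] at hσ'
    refine ⟨d, fun e => n1 (sq_of_ty_zero (by rw [hσ, pow_two]) (e ▸ hd)), fun e => ?_,
      ⟨i * algebraMap F Ω v, σ, algebraMap F Ω u, mul_ne_zero hi0 (inj hv), hσ0,
        (hι.mul (ty_alg v)).congr (add_zero _), hd, ty_alg u, ?_⟩,
      ⟨i * algebraMap F Ω (p * v + q * u), i * σ, algebraMap F Ω (p * u - q * v),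
        mul_ne_zero hi0 (inj hg), mul_ne_zero hi0 hσ0,
        (hι.mul (ty_alg _)).congr (add_zero _), hι.mul hd, ty_alg _, ?_⟩⟩
    · refine n2 (sq_of_ty_zero (x := σ * i) ?_ ((hd.mul hι).congr (e ▸ fun_add_self d)))
      rw [map_neg, hσ]
      linear_combination (-(σ * σ)) * hi
    · linear_combination hσ' + algebraMap F Ω v ^ 2 * hi
    · have := congrArg (algebraMap F Ω) hpq
      simp only [map_add, map_sub, map_mul, map_pow, map_neg, map_one] at this ⊢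
      linear_combination (algebraMap F Ω u ^ 2 + algebraMap F Ω v ^ 2) * this - hσ' +
        ((algebraMap F Ω p * algebraMap F Ω v + algebraMap F Ω q * algebraMap F Ω u) ^ 2 +
          σ ^ 2) * hi
  · refine ⟨ι, h0, h1, ?_, ?_⟩
    · have := rx.shift h2 hi.symm hι (by rw [fun_add_self]; exact Ne.symm h0)
      rwa [fun_add_self, zero_add] at this
    · obtain ⟨α, -, -, a1, -, a3, -⟩ := rx
      exact ⟨α, α * i, 0, a1, mul_ne_zero a1 hi0, a3, a3.mul hι, fun g => by simp,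
        by linear_combination α ^ 2 * hi⟩

lemma degen [IsSepClosed Ω] [IsGalois F Ω] (h2 : (2 : Ω) ≠ 0) (hE : ¬ Exceptional F)
    {K : IntermediateField F Ω} {Q : (Ω ≃ₐ[F] Ω) → ZMod 2} {γ : Ω} (hK : QDat K Q γ)
    {x y : (Ω ≃ₐ[F] Ω) → ZMod 2} (hx : x ≠ 0) (hy : y ≠ 0) (hxy : x ≠ y) (rx : Rel x x)
    (ry : Rel y (x + y)) (hQ : ∀ g, Q g = x g * x g + x g * y g + y g * y g) : Three K := by
  obtain ⟨d, d0, dx, r1, r2⟩ := split h2 hE hx hy hxy rx ry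
  refine glue h2 hK ⟨r1, hx, d0, dx.symm⟩
    ⟨r2, hx, fun e => dx (eq_of_add e).symm, fun e => d0 (left_eq_add.mp e)⟩
    ⟨ry, hy, fun e => hxy (eq_of_add e), fun e => hx (right_eq_add.mp e)⟩ fun g => ?_
  have : ∀ a b c : ZMod 2, a * a + a * b + b * b = a * c + a * (a + c) + b * (a + b) := by decide
  rw [hQ]
  exact this _ _ _

lemma HasGroup.stable {Γ : Type} [Group Γ] {L : IntermediateField F Ω} (h : HasGroup Γ L)
    (g : Ω ≃ₐ[F] Ω) : ∀ x ∈ L, g x ∈ L := by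
  have := h.1
  intro x hx
  rw [← AlgEquiv.restrictNormalHom_apply L g ⟨x, hx⟩]
  exact SetLike.coe_mem _

theorem three_of [IsSepClosed Ω] [IsGalois F Ω] (h2 : (2 : Ω) ≠ 0) (hE : ¬ Exceptional F)
    {K : IntermediateField F Ω} (hK : HasGroup (QuaternionGroup 2) K) : Three K := by
  obtain ⟨ρ, hρ⟩ := hK.pres
  obtain ⟨u, v, w, γ, hu, hv, h0, hgg, hker, r1, r2, r3⟩ := hρ.quat h2 hK.stable
  have hQ : QDat K (fun g => u g * u g + u g * v g + v g * v g) γ :=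
    ⟨h0, hgg, fun g hg => ⟨(hker g hg).1, fun e => (hρ.2 g).mp ((hker g hg).2 e)⟩⟩
  obtain ⟨g1, hg1⟩ := hρ.1 (QuaternionGroup.a 1)
  obtain ⟨g2, hg2⟩ := hρ.1 (QuaternionGroup.xa 0)
  have u1 : u g1 = 1 := by rw [hu, hg1]; decide
  have v1 : v g1 = 0 := by rw [hv, hg1]; decide
  have v2 : v g2 = 1 := by rw [hv, hg2]; decide
  have u0 : u ≠ 0 := fun e => by rw [e, Pi.zero_apply] at u1; exact absurd u1 (by decide)
  have v0 : v ≠ 0 := fun e => by rw [e, Pi.zero_apply] at v2; exact absurd v2 (by decide)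
  have uv : u ≠ v := fun e => by rw [e, v1] at u1; exact absurd u1 (by decide)
  have n1 : u ≠ u + v := fun e => v0 (left_eq_add.mp e)
  have n2 : v ≠ u + v := fun e => u0 (right_eq_add.mp e)
  have c1 : u + (u + v) = v := by rw [← add_assoc, fun_add_self, zero_add]
  have c2 : v + (u + v) = u := by rw [add_comm u, ← add_assoc, fun_add_self, zero_add]
  have c3 : u + v + u = v := by rw [add_comm, c1]
  by_cases w1 : w = u
  · subst w1
    have a2 := r2 n1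
    rw [c3] at a2
    refine degen h2 hE hQ v0 u0 uv.symm a2 (r3 uv) fun g => ?_
    ring
  by_cases w2 : w = u + v
  · subst w2
    have a1 := r1 w1
    have a3 := r3 n2.symm
    rw [c1] at a1
    rw [c2] at a3
    exact degen h2 hE hQ u0 v0 uv a3 a1.symm fun g => rfl
  by_cases w3 : w = v
  · subst w3
    refine degen h2 hE hQ (fun e => uv (eq_of_add e)) v0 n2.symm (r1 w1) (r2 w2) fun g => ?_
    have : ∀ a b : ZMod 2, a * a + a * b + b * b = (a + b) * (a + b) + (a + b) * b + b * b := by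
      decide
    exact this _ _
  refine glue h2 hQ
    ⟨r1 w1, fun e => uv (eq_of_add e), fun e => w1 (eq_of_add e).symm,
      fun e => w3 (add_left_cancel e).symm⟩
    ⟨r2 w2, v0, fun e => w2 (eq_of_add e).symm, fun e => w1 ?_⟩
    ⟨r3 w3, u0, fun e => w3 (eq_of_add e).symm, fun e => w2 ?_⟩ fun g => ?_
  · rw [add_comm u, add_assoc] at e
    exact (eq_of_add (left_eq_add.mp e)).symm
  · rw [e, add_comm v, add_assoc, fun_add_self, add_zero]
  · have : ∀ a b c : ZMod 2, a * a + a * b + b * b =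
      (a + b) * (a + c) + b * (a + b + c) + a * (b + c) := by decide
    exact this _ _ _

set_option synthInstance.maxSize 4096 in
lemma bitsA : ∀ a1 b1 c1 d1 a2 b2 c2 d2 c d u v : ZMod 2,
    ((a1 + a2) * (b1 + b2) = 0 → (c1 + c2) * (d1 + d2) = 0 → False) →
    (a1 * b1 = 0 → c1 * d1 = 0 → False) → (a2 * b2 = 0 → c2 * d2 = 0 → False) →
    (c * d = 0 → u = 0 ∧ v = 0) →
    ((1 + a1) * (0 + b1) = 0 → (c + c1) * (d + d1) = 0 → u + 1 = 0 ∧ v + 0 = 0) →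
    ((1 + a2) * (0 + b2) = 0 → (c + c2) * (d + d2) = 0 → u + 0 = 0 ∧ v + 1 = 0) →
    ((1 + (a1 + a2)) * (0 + (b1 + b2)) = 0 → (c + (c1 + c2)) * (d + (d1 + d2)) = 0 →
      u + (1 + 0) = 0 ∧ v + (0 + 1) = 0) →
    (a1 * b1 = 0 ∨ a2 * b2 = 0) ∧ (a1 * b1 = 0 ∨ (a1 + a2) * (b1 + b2) = 0) ∧
      (a2 * b2 = 0 ∨ (a1 + a2) * (b1 + b2) = 0) := by decide +kernel

lemma half {G : Type*} [Group G] {a b c d u v : G → ZMod 2}
    (ha : ∀ g g', a (g * g') = a g + a g') (hb : ∀ g g', b (g * g') = b g + b g')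
    (hc : ∀ g g', c (g * g') = c g + c g') (hd : ∀ g g', d (g * g') = d g + d g')
    (hu : ∀ g g', u (g * g') = u g + u g') (hv : ∀ g g', v (g * g') = v g + v g')
    (H : ∀ g, a g * b g = 0 → c g * d g = 0 → u g = 0 ∧ v g = 0) {g1 g2 h : G}
    (u1 : u g1 = 1) (v1 : v g1 = 0) (u2 : u g2 = 0) (v2 : v g2 = 1) (ah : a h = 1)
    (bh : b h = 0) :
    (a g1 * b g1 = 0 ∨ a g2 * b g2 = 0) ∧ (a g1 * b g1 = 0 ∨ a (g1 * g2) * b (g1 * g2) = 0) ∧
      (a g2 * b g2 = 0 ∨ a (g1 * g2) * b (g1 * g2) = 0) := by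
  have H1 := H g1
  have H2 := H g2
  have H3 := H (g1 * g2)
  have H4 := H h
  have H5 := H (h * g1)
  have H6 := H (h * g2)
  have H7 := H (h * (g1 * g2))
  simp only [ha, hb, hc, hd, hu, hv, u1, v1, u2, v2, ah, bh] at H1 H2 H3 H4 H5 H6 H7 ⊢
  exact bitsA _ _ _ _ _ _ _ _ _ _ _ _ (fun x y => absurd (H3 x y).1 (by decide))
    (fun x y => absurd (H1 x y).1 (by decide)) (fun x y => absurd (H2 x y).2 (by decide))
    (H4 (by decide)) H5 H6 H7

/-- two dihedral quotients never dominate a quaternion quotient -/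
lemma not_two {G : Type*} [Group G] (ρ1 ρ2 : G →* DihedralGroup 4) (ρ : G →* QuaternionGroup 2)
    (s1 : Function.Surjective ρ1) (s2 : Function.Surjective ρ2) (s : Function.Surjective ρ)
    (h : ∀ g, ρ1 g = 1 → ρ2 g = 1 → ρ g = 1) : False := by
  have H : ∀ g, pD (ρ1 g) * qD (ρ1 g) = 0 → pD (ρ2 g) * qD (ρ2 g) = 0 →
      uQ (ρ g) = 0 ∧ vQ (ρ g) = 0 := fun g e1 e2 => sq_Q _ (by
    rw [← map_mul]
    exact h _ (by rw [map_mul]; exact sq_D _ e1) (by rw [map_mul]; exact sq_D _ e2))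
  obtain ⟨g1, hg1⟩ := s (QuaternionGroup.a 1)
  obtain ⟨g2, hg2⟩ := s (QuaternionGroup.xa 0)
  obtain ⟨h1, hh1⟩ := s1 (DihedralGroup.sr 1)
  obtain ⟨h2, hh2⟩ := s2 (DihedralGroup.sr 1)
  have u1 : uQ (ρ g1) = 1 := by rw [hg1]; decide
  have v1 : vQ (ρ g1) = 0 := by rw [hg1]; decide
  have u2 : uQ (ρ g2) = 0 := by rw [hg2]; decide
  have v2 : vQ (ρ g2) = 1 := by rw [hg2]; decide
  have ap : ∀ (τ : G →* DihedralGroup 4) g g', pD (τ (g * g')) = pD (τ g) + pD (τ g') :=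
    fun τ g g' => by rw [map_mul, pD_mul]
  have aq : ∀ (τ : G →* DihedralGroup 4) g g', qD (τ (g * g')) = qD (τ g) + qD (τ g') :=
    fun τ g g' => by rw [map_mul, qD_mul]
  have au : ∀ g g', uQ (ρ (g * g')) = uQ (ρ g) + uQ (ρ g') := fun g g' => by rw [map_mul, uQ_mul]
  have av : ∀ g g', vQ (ρ (g * g')) = vQ (ρ g) + vQ (ρ g') := fun g g' => by rw [map_mul, vQ_mul]
  have A := half (ap ρ1) (aq ρ1) (ap ρ2) (aq ρ2) au av H u1 v1 u2 v2 (h := h1)
    (by rw [hh1]; decide) (by rw [hh1]; decide)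
  have B := half (ap ρ2) (aq ρ2) (ap ρ1) (aq ρ1) au av (fun g x y => H g y x) u1 v1 u2 v2 (h := h2)
    (by rw [hh2]; decide) (by rw [hh2]; decide)
  have H1 := fun x y => (H g1 x y).1
  have H2 := fun x y => (H g2 x y).2
  have H3 := fun x y => (H (g1 * g2) x y).1
  rw [u1] at H1
  rw [v2] at H2
  rw [au, u1, u2] at H3
  have n1 : (1 : ZMod 2) ≠ 0 := by decide
  have n2 : (1 + 0 : ZMod 2) ≠ 0 := by decide
  tauto

/-- over an exceptional field every dihedral field is cyclic over the field of `i` -/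
lemma exc_char [IsGalois F Ω] (h2 : (2 : Ω) ≠ 0) (hE : Exceptional F) {i : Ω} (hi : -1 = i * i)
    {ι p q : (Ω ≃ₐ[F] Ω) → ZMod 2} (hι : Ty i ι) (h : Good p q) : p + q = ι := by
  obtain ⟨⟨α, β, T, a1, a2, a3, a4, a5, a6⟩, hp, hq, hpq⟩ := h
  obtain ⟨A, hA⟩ := (ty_zero.mpr a3.fixsq).base
  obtain ⟨B, hB⟩ := (ty_zero.mpr a4.fixsq).base
  obtain ⟨t, ht⟩ := a5.base
  have := rigid hE (A := A) (B := B) (T := t)
    ((algebraMap F Ω).injective (by rw [map_pow, map_add, hA, hB, ht, a6]))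
    (fun e => hp (Ty.uniq h2 a1 a3 (ty_zero_of_sq hA.symm e)))
    (fun e => hq (Ty.uniq h2 a2 a4 (ty_zero_of_sq hB.symm e)))
    (fun e => hpq (eq_of_add (Ty.uniq h2 (mul_ne_zero a1 a2) (a3.mul a4)
      (ty_zero_of_sq (by rw [map_mul, hA, hB, mul_pow]) e))))
  have hi0 : i ≠ 0 := fun e => by rw [e] at hi; simp at hi
  exact eq_of_add (Ty.uniq h2 (mul_ne_zero (mul_ne_zero a1 a2) hi0) ((a3.mul a4).mul hι)
    (ty_zero_of_sq (by
      rw [map_mul, map_neg, hA, hB]; linear_combination (-(α ^ 2 * β ^ 2)) * hi) this))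

theorem main [IsSepClosure F Ω] (h2 : (2 : F) ≠ 0) (K : IntermediateField F Ω)
    (hK : HasGroup (QuaternionGroup 2) K) (k : ℕ) :
    (∃ L : Fin k → IntermediateField F Ω, (∀ i, HasGroup (DihedralGroup 4) (L i)) ∧ K ≤ ⨆ i, L i) ↔
      3 ≤ k ∧ ¬ Exceptional F := by
  have : IsSepClosed Ω := IsSepClosure.sep_closed F
  have h2' : (2 : Ω) ≠ 0 := fun e => h2 ((algebraMap F Ω).injective (by rw [map_ofNat, e, map_zero]))
  constructor
  · rintro ⟨L, hL, hle⟩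
    obtain ⟨ρ, hρ⟩ := hK.pres
    choose τ hτ using fun i => (hL i).pres
    have hfix : ∀ g, (∀ i, τ i g = 1) → ρ g = 1 := fun g hg =>
      (hρ.2 g).mpr fun x hx => fix_sup L g (fun i => ((hτ i).2 g).mp (hg i)) x (hle hx)
    obtain ⟨g1, hg1⟩ := hρ.1 (QuaternionGroup.a 1)
    constructor
    · by_contra hk
      rcases Nat.eq_zero_or_pos k with rfl | hk0
      · exact absurd (hg1.symm.trans (hfix g1 fun i => i.elim0)) (by decide)
      · refine not_two (τ ⟨0, hk0⟩) (τ ⟨k - 1, by omega⟩) ρ (hτ _).1 (hτ _).1 hρ.1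
          fun g e1 e2 => hfix g fun i => ?_
        have : i = ⟨0, hk0⟩ ∨ i = ⟨k - 1, by omega⟩ := by
          simp only [Fin.ext_iff]
          have := i.2
          omega
        rcases this with rfl | rfl
        · exact e1
        · exact e2
    · intro hE
      have : NeZero (2 : Ω) := ⟨h2'⟩
      obtain ⟨i, hi⟩ := IsSepClosed.exists_eq_mul_self (-1 : Ω)
      have hi0 : i ≠ 0 := fun e => by rw [e] at hi; simp at hi
      obtain ⟨ι, hι⟩ : ∃ ι : (Ω ≃ₐ[F] Ω) → ZMod 2, Ty i ι := ty_of_sq fun g => by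
        rw [pow_two, ← hi, map_neg, map_one]
      have hι0 : ι ≠ 0 := fun e =>
        hE.1 (sq_of_ty_zero (x := i) (by rw [pow_two, ← hi]; simp) (e ▸ hι))
      obtain ⟨g0, hg0⟩ := Function.ne_iff.mp hι0
      have e0 : ι g0 = 1 := (bit _).resolve_left hg0
      have key : ∀ g, ι g = 1 → uQ (ρ g) = 0 := fun g hg => by
        refine (sq_Q _ ?_).1
        rw [← map_mul]
        refine hfix _ fun j => ?_
        rw [map_mul]
        refine sq_D _ ?_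
        obtain ⟨x, hx⟩ := (hτ j).1 (DihedralGroup.sr 1)
        obtain ⟨y, hy⟩ := (hτ j).1 (DihedralGroup.sr 0)
        have := congrFun (exc_char h2' hE hi hι ⟨(hτ j).rel h2' (hL j).stable,
          Function.ne_iff.mpr ⟨x, by simp only [hx, Pi.zero_apply]; decide⟩,
          Function.ne_iff.mpr ⟨y, by simp only [hy, Pi.zero_apply]; decide⟩,
          Function.ne_iff.mpr ⟨x, by simp only [hx]; decide⟩⟩) g
        rw [hg, Pi.add_apply] at this
        have hb : ∀ a b : ZMod 2, a + b = 1 → a * b = 0 := by decide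
        exact hb _ _ this
      rcases bit (ι g1) with e | e
      · have a1 := key (g0 * g1) (by rw [hι.add h2' hi0, e0, e, add_zero])
        rw [map_mul, uQ_mul, key g0 e0, hg1] at a1
        exact absurd a1 (by decide)
      · have a1 := key g1 e
        rw [hg1] at a1
        exact absurd a1 (by decide)
  · rintro ⟨hk, hE⟩
    obtain ⟨L1, L2, L3, a1, a2, a3, hfix⟩ := three_of h2' hE hK
    let L : Fin k → IntermediateField F Ω := fun i =>
      if i.val = 0 then L1 else if i.val = 1 then L2 else L3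
    refine ⟨L, fun i => ?_, le_of_fix fun g hg => hfix g ?_ ?_ ?_⟩
    · simp only [L]
      split_ifs <;> assumption
    · exact fun x hx => hg x (le_iSup L ⟨0, by omega⟩ (by simpa [L] using hx))
    · exact fun x hx => hg x (le_iSup L ⟨1, by omega⟩ (by simpa [L] using hx))
    · exact fun x hx => hg x (le_iSup L ⟨2, by omega⟩ (by simpa [L] using hx))

end Pool.Agent.QD4
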