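import Pool.Agent.Lib.MP_0ba956_nt.Dih

set_option linter.unusedSimpArgs false

namespace Pool.Agent.QD4

open QuaternionGroup

variable {F Ω : Type*} [Field F] [Field Ω] [Algebra F Ω]

/-- first character of the quaternion group -/
def uQ : QuaternionGroup 2 → ZMod 2
  | a i => if i = 0 ∨ i = 2 then 0 else 1
  | xa j => if j = 0 ∨ j = 2 then 0 else 1

/-- second character of the quaternion group -/
def vQ : QuaternionGroup 2 → ZMod 2
  | a _ => 0
  | xa _ => 1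

lemma uQ_mul : ∀ d d' : QuaternionGroup 2, uQ (d * d') = uQ d + uQ d' := by decide

lemma vQ_mul : ∀ d d' : QuaternionGroup 2, vQ (d * d') = vQ d + vQ d' := by decide

lemma sq_Q : ∀ d : QuaternionGroup 2, d * d = 1 → uQ d = 0 ∧ vQ d = 0 := by decide

lemma sq_Q' : ∀ d : QuaternionGroup 2,
    (uQ d * uQ d + uQ d * vQ d + vQ d * vQ d = 0 ∧ d * d = 1) ∨
      (uQ d * uQ d + uQ d * vQ d + vQ d * vQ d = 1 ∧ d * d = 1 * a 2) := by decide

lemma ker_Q : ∀ d : QuaternionGroup 2,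
    uQ d * uQ d + uQ d * vQ d + vQ d * vQ d = 0 → d = 1 ∨ d = 1 * a 2 := by decide

lemma all_Q : ∀ d : QuaternionGroup 2, d = a 0 ∨ d = a 1 ∨ d = a 2 ∨ d = a 3 ∨
    d = xa 0 ∨ d = xa 1 ∨ d = xa 2 ∨ d = xa 3 := by decide

lemma table {f : QuaternionGroup 2 → Ω} (hz : ∀ d, f (d * a 2) = -f d) (d : QuaternionGroup 2) :
    f (d * a 0) * f (d * a 1) * f (d * xa 0) * f (d * xa 3) =
      f (a 0) * f (a 1) * f (xa 0) * f (xa 3) ∧
    f (d * a 1) * f (d * xa 0) + f (d * a 0) * f (d * xa 3) =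
      sg Ω (uQ d) * (f (a 1) * f (xa 0) + f (a 0) * f (xa 3)) ∧
    f (d * a 1) * f (d * xa 0) - f (d * a 0) * f (d * xa 3) =
      sg Ω (vQ d) * (f (a 1) * f (xa 0) - f (a 0) * f (xa 3)) ∧
    f (d * a 0) * f (d * a 1) + f (d * xa 0) * f (d * xa 3) =
      sg Ω (uQ d + vQ d) * (f (a 0) * f (a 1) + f (xa 0) * f (xa 3)) ∧
    f (d * a 0) * f (d * a 1) - f (d * xa 0) * f (d * xa 3) =
      sg Ω (uQ d) * (f (a 0) * f (a 1) - f (xa 0) * f (xa 3)) ∧
    f (d * a 0) * f (d * xa 0) + f (d * a 1) * f (d * xa 3) =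
      sg Ω (vQ d) * (f (a 0) * f (xa 0) + f (a 1) * f (xa 3)) ∧
    f (d * a 0) * f (d * xa 0) - f (d * a 1) * f (d * xa 3) =
      sg Ω (uQ d + vQ d) * (f (a 0) * f (xa 0) - f (a 1) * f (xa 3)) := by
  have e2 : f (a 2) = -f (a 0) := hz (a 0)
  have e3 : f (a 3) = -f (a 1) := hz (a 1)
  have e4 : f (xa 2) = -f (xa 0) := hz (xa 0)
  have e5 : f (xa 1) = -f (xa 3) := hz (xa 3)
  rw [sg_add]
  rcases all_Q d with rfl | rfl | rfl | rfl | rfl | rfl | rfl | rfl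
  · rw [show (a 0 * a 0 : QuaternionGroup 2) = a 0 by decide,
      show (a 0 * a 1 : QuaternionGroup 2) = a 1 by decide,
      show (a 0 * xa 0 : QuaternionGroup 2) = xa 0 by decide,
      show (a 0 * xa 3 : QuaternionGroup 2) = xa 3 by decide,
      show uQ (a 0) = 0 by decide, show vQ (a 0) = 0 by decide]
    simp only [sg_zero, sg_one, e2, e3, e4, e5]
    refine ⟨?_, ?_, ?_, ?_, ?_, ?_, ?_⟩ <;> first | trivial | ring
  · rw [show (a 1 * a 0 : QuaternionGroup 2) = a 1 by decide,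
      show (a 1 * a 1 : QuaternionGroup 2) = a 2 by decide,
      show (a 1 * xa 0 : QuaternionGroup 2) = xa 3 by decide,
      show (a 1 * xa 3 : QuaternionGroup 2) = xa 2 by decide,
      show uQ (a 1) = 1 by decide, show vQ (a 1) = 0 by decide]
    simp only [sg_zero, sg_one, e2, e3, e4, e5]
    refine ⟨?_, ?_, ?_, ?_, ?_, ?_, ?_⟩ <;> first | trivial | ring
  · rw [show (a 2 * a 0 : QuaternionGroup 2) = a 2 by decide,
      show (a 2 * a 1 : QuaternionGroup 2) = a 3 by decide,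
      show (a 2 * xa 0 : QuaternionGroup 2) = xa 2 by decide,
      show (a 2 * xa 3 : QuaternionGroup 2) = xa 1 by decide,
      show uQ (a 2) = 0 by decide, show vQ (a 2) = 0 by decide]
    simp only [sg_zero, sg_one, e2, e3, e4, e5]
    refine ⟨?_, ?_, ?_, ?_, ?_, ?_, ?_⟩ <;> first | trivial | ring
  · rw [show (a 3 * a 0 : QuaternionGroup 2) = a 3 by decide,
      show (a 3 * a 1 : QuaternionGroup 2) = a 0 by decide,
      show (a 3 * xa 0 : QuaternionGroup 2) = xa 1 by decide,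
      show (a 3 * xa 3 : QuaternionGroup 2) = xa 0 by decide,
      show uQ (a 3) = 1 by decide, show vQ (a 3) = 0 by decide]
    simp only [sg_zero, sg_one, e2, e3, e4, e5]
    refine ⟨?_, ?_, ?_, ?_, ?_, ?_, ?_⟩ <;> first | trivial | ring
  · rw [show (xa 0 * a 0 : QuaternionGroup 2) = xa 0 by decide,
      show (xa 0 * a 1 : QuaternionGroup 2) = xa 1 by decide,
      show (xa 0 * xa 0 : QuaternionGroup 2) = a 2 by decide,
      show (xa 0 * xa 3 : QuaternionGroup 2) = a 1 by decide,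
      show uQ (xa 0) = 0 by decide, show vQ (xa 0) = 1 by decide]
    simp only [sg_zero, sg_one, e2, e3, e4, e5]
    refine ⟨?_, ?_, ?_, ?_, ?_, ?_, ?_⟩ <;> first | trivial | ring
  · rw [show (xa 1 * a 0 : QuaternionGroup 2) = xa 1 by decide,
      show (xa 1 * a 1 : QuaternionGroup 2) = xa 2 by decide,
      show (xa 1 * xa 0 : QuaternionGroup 2) = a 1 by decide,
      show (xa 1 * xa 3 : QuaternionGroup 2) = a 0 by decide,
      show uQ (xa 1) = 1 by decide, show vQ (xa 1) = 1 by decide]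
    simp only [sg_zero, sg_one, e2, e3, e4, e5]
    refine ⟨?_, ?_, ?_, ?_, ?_, ?_, ?_⟩ <;> first | trivial | ring
  · rw [show (xa 2 * a 0 : QuaternionGroup 2) = xa 2 by decide,
      show (xa 2 * a 1 : QuaternionGroup 2) = xa 3 by decide,
      show (xa 2 * xa 0 : QuaternionGroup 2) = a 0 by decide,
      show (xa 2 * xa 3 : QuaternionGroup 2) = a 3 by decide,
      show uQ (xa 2) = 0 by decide, show vQ (xa 2) = 1 by decide]
    simp only [sg_zero, sg_one, e2, e3, e4, e5]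
    refine ⟨?_, ?_, ?_, ?_, ?_, ?_, ?_⟩ <;> first | trivial | ring
  · rw [show (xa 3 * a 0 : QuaternionGroup 2) = xa 3 by decide,
      show (xa 3 * a 1 : QuaternionGroup 2) = xa 0 by decide,
      show (xa 3 * xa 0 : QuaternionGroup 2) = a 3 by decide,
      show (xa 3 * xa 3 : QuaternionGroup 2) = a 2 by decide,
      show uQ (xa 3) = 1 by decide, show vQ (xa 3) = 1 by decide]
    simp only [sg_zero, sg_one, e2, e3, e4, e5]
    refine ⟨?_, ?_, ?_, ?_, ?_, ?_, ?_⟩ <;> first | trivial | ring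

/-- a difference of squares gives a norm relation -/
lemma rel_of (h2 : (2 : Ω) ≠ 0) {x y w : (Ω ≃ₐ[F] Ω) → ZMod 2} {X Y ν m : Ω} (hm0 : m ≠ 0)
    (hm : Ty m x) (hX : Ty X x) (hY : Ty Y y) (hν0 : ν ≠ 0) (hν : Ty ν w)
    (h : X ^ 2 = Y ^ 2 + ν ^ 2) (hw : w ≠ x) : Rel (x + y) (x + w) := by
  have hY0 : Y ≠ 0 := fun e => hw (by
    rw [e] at h
    have hX2 : X ^ 2 = ν ^ 2 := by linear_combination h
    rcases sq_eq_sq_iff_eq_or_eq_neg.mp hX2 with e | e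
    · exact Ty.uniq h2 hν0 hν (e ▸ hX)
    · refine Ty.uniq h2 hν0 hν fun g => ?_
      have := hX g
      rw [e, map_neg] at this
      linear_combination -this)
  exact ⟨m * Y, m * ν, m * X, mul_ne_zero hm0 hY0, mul_ne_zero hm0 hν0, hm.mul hY, hm.mul hν,
    (hm.mul hX).congr (fun_add_self x), by rw [mul_pow, h]; ring⟩

/-- the structure of a quaternion field -/
lemma Pres.quat [IsSepClosed Ω] (h2 : (2 : Ω) ≠ 0) {K : IntermediateField F Ω}
    {ρ : (Ω ≃ₐ[F] Ω) →* QuaternionGroup 2} (h : Pres K ρ)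
    (hK : ∀ g : Ω ≃ₐ[F] Ω, ∀ x ∈ K, g x ∈ K) :
    ∃ (u v w : (Ω ≃ₐ[F] Ω) → ZMod 2) (γ : Ω), (∀ g, u g = uQ (ρ g)) ∧ (∀ g, v g = vQ (ρ g)) ∧
      γ ≠ 0 ∧ (∀ g : Ω ≃ₐ[F] Ω, g (g γ) = sg Ω (u g * u g + u g * v g + v g * v g) * γ) ∧
      (∀ g : Ω ≃ₐ[F] Ω, u g * u g + u g * v g + v g * v g = 0 →
        (g γ = γ ∨ g γ = -γ) ∧ (g γ = γ → ρ g = 1)) ∧
      (w ≠ u → Rel (u + v) (u + w)) ∧ (w ≠ u + v → Rel v (u + v + w)) ∧
      (w ≠ v → Rel u (v + w)) := by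
  choose s hs using h.1
  have hmul : ∀ (g : Ω ≃ₐ[F] Ω) d, ∀ x ∈ K, g (s d x) = s (ρ g * d) x := fun g d x hx => by
    rw [← AlgEquiv.mul_apply]
    exact h.eq (by rw [map_mul, hs, hs]) hx
  have hone : ∀ x ∈ K, s 1 x = x := (h.2 _).mp (hs 1)
  obtain ⟨γ, hγ, hγ0, hγz⟩ : ∃ x ∈ K, x ≠ 0 ∧ s (a 2) x = -x := by
    have : ¬ ∀ x ∈ K, s (a 2) x = x := fun e => by
      have := (h.2 _).mpr e
      rw [hs] at this
      exact absurd this (by decide)
    push Not at this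
    obtain ⟨y, hy, hyz⟩ := this
    exact ⟨y - s (a 2) y, K.sub_mem hy (hK _ _ hy), sub_ne_zero.mpr hyz.symm, by
        rw [map_sub, hmul _ _ _ hy, hs, show (a 2 * a 2 : QuaternionGroup 2) = 1 by decide,
          hone y hy, neg_sub]⟩
  let f : QuaternionGroup 2 → Ω := fun d => s d γ
  have hz : ∀ d, f (d * a 2) = -f d := fun d => by
    simp only [f]
    rw [← map_neg, ← hγz, hmul _ _ _ hγ, hs]
  have hg : ∀ (g : Ω ≃ₐ[F] Ω) d, g (f d) = f (ρ g * d) := fun g d => hmul g d γ hγ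
  have hf1 : f 1 = γ := hone γ hγ
  have hf0 : ∀ d, f d ≠ 0 := fun d => by simpa [f] using hγ0
  have hgγ : ∀ g : Ω ≃ₐ[F] Ω, g γ = f (ρ g) := fun g => by rw [← hf1, hg, mul_one]
  let u : (Ω ≃ₐ[F] Ω) → ZMod 2 := fun g => uQ (ρ g)
  let v : (Ω ≃ₐ[F] Ω) → ZMod 2 := fun g => vQ (ρ g)
  have : NeZero (2 : Ω) := ⟨h2⟩
  obtain ⟨ν, hν⟩ := IsSepClosed.exists_eq_mul_self (4 * (f (a 0) * f (a 1) * f (xa 0) * f (xa 3)))
  have h4 : (4 : Ω) ≠ 0 := by
    rw [show (4 : Ω) = 2 * 2 by norm_num]; exact mul_ne_zero h2 h2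
  have hν0 : ν ≠ 0 := fun e => by
    rw [e, mul_zero] at hν
    exact mul_ne_zero h4 (mul_ne_zero (mul_ne_zero (mul_ne_zero (hf0 _) (hf0 _)) (hf0 _))
      (hf0 _)) hν
  obtain ⟨w, hw⟩ : ∃ w : (Ω ≃ₐ[F] Ω) → ZMod 2, Ty ν w := ty_of_sq fun g => by
    rw [pow_two, ← hν]
    simp only [map_mul, map_ofNat, hg]
    rw [(table hz (ρ g)).1]
  have tX1 : Ty (f (a 1) * f (xa 0) + f (a 0) * f (xa 3)) u := fun g => by
    simp only [map_mul, map_add, hg]; exact (table hz (ρ g)).2.1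
  have tY1 : Ty (f (a 1) * f (xa 0) - f (a 0) * f (xa 3)) v := fun g => by
    simp only [map_mul, map_sub, hg]; exact (table hz (ρ g)).2.2.1
  have tX2 : Ty (f (a 0) * f (a 1) + f (xa 0) * f (xa 3)) (u + v) := fun g => by
    simp only [map_mul, map_add, hg]; exact (table hz (ρ g)).2.2.2.1
  have tY2 : Ty (f (a 0) * f (a 1) - f (xa 0) * f (xa 3)) u := fun g => by
    simp only [map_mul, map_sub, hg]; exact (table hz (ρ g)).2.2.2.2.1
  have tX3 : Ty (f (a 0) * f (xa 0) + f (a 1) * f (xa 3)) v := fun g => by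
    simp only [map_mul, map_add, hg]; exact (table hz (ρ g)).2.2.2.2.2.1
  have tY3 : Ty (f (a 0) * f (xa 0) - f (a 1) * f (xa 3)) (u + v) := fun g => by
    simp only [map_mul, map_sub, hg]; exact (table hz (ρ g)).2.2.2.2.2.2
  have r1 : (f (a 1) * f (xa 0) + f (a 0) * f (xa 3)) ^ 2 =
      (f (a 1) * f (xa 0) - f (a 0) * f (xa 3)) ^ 2 + ν ^ 2 := by linear_combination hν
  have r2 : (f (a 0) * f (a 1) + f (xa 0) * f (xa 3)) ^ 2 =
      (f (a 0) * f (a 1) - f (xa 0) * f (xa 3)) ^ 2 + ν ^ 2 := by linear_combination hν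
  have r3 : (f (a 0) * f (xa 0) + f (a 1) * f (xa 3)) ^ 2 =
      (f (a 0) * f (xa 0) - f (a 1) * f (xa 3)) ^ 2 + ν ^ 2 := by linear_combination hν
  have alt : ∀ {X Y : Ω}, X ^ 2 = Y ^ 2 + ν ^ 2 → X ≠ 0 ∨ Y ≠ 0 := fun {X Y} e => by
    by_contra hc
    push Not at hc
    rw [hc.1, hc.2] at e
    exact pow_ne_zero 2 hν0 (by linear_combination -e)
  have c1 : u + (u + v) = v := by rw [← add_assoc, fun_add_self, zero_add]
  have c2 : v + (u + v) = u := by rw [add_comm u, ← add_assoc, fun_add_self, zero_add]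
  obtain ⟨⟨m, hm0, hm⟩, ⟨m', hm0', hm'⟩⟩ : (∃ m, m ≠ 0 ∧ Ty m u) ∧ ∃ m, m ≠ 0 ∧ Ty m v := by
    rcases alt r1 with a1 | a1
    · rcases alt r3 with a3 | a3
      · exact ⟨⟨_, a1, tX1⟩, ⟨_, a3, tX3⟩⟩
      · exact ⟨⟨_, a1, tX1⟩, ⟨_, mul_ne_zero a1 a3, (tX1.mul tY3).congr c1⟩⟩
    · rcases alt r2 with a2 | a2
      · exact ⟨⟨_, mul_ne_zero a1 a2, (tY1.mul tX2).congr c2⟩, ⟨_, a1, tY1⟩⟩
      · exact ⟨⟨_, a2, tY2⟩, ⟨_, a1, tY1⟩⟩
  refine ⟨u, v, w, γ, fun _ => rfl, fun _ => rfl, hγ0, fun g => ?_, fun g hq => ?_,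
    fun hw' => rel_of h2 hm0 hm tX1 tY1 hν0 hw r1 hw', fun hw' => ?_, fun hw' => ?_⟩
  · rw [hgγ, hg]
    rcases sq_Q' (ρ g) with ⟨e1, e2⟩ | ⟨e1, e2⟩
    · rw [e2, hf1, show u g * u g + u g * v g + v g * v g = 0 from e1, sg_zero, one_mul]
    · rw [e2, hz, hf1, show u g * u g + u g * v g + v g * v g = 1 from e1, sg_one, neg_one_mul]
  · rcases ker_Q (ρ g) hq with e | e
    · exact ⟨Or.inl (by rw [hgγ, e, hf1]), fun _ => e⟩
    · have : g γ = -γ := by rw [hgγ, e, hz, hf1]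
      exact ⟨Or.inr this, fun e' => absurd (e'.symm.trans this) (ne_neg_of h2 hγ0)⟩
  · have := rel_of h2 (mul_ne_zero hm0 hm0') (hm.mul hm') tX2 tY2 hν0 hw r2 hw'
    rwa [add_comm (u + v) u, c1] at this
  · have := rel_of h2 hm0' hm' tX3 tY3 hν0 hw r3 hw'
    rwa [c2] at this

end Pool.Agent.QD4
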